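import Mathlib

/-!
# A finite Hilbert inequality

For a finite set `B` of natural numbers,
`∑ i ∈ B, ‖∑ j ∈ B, [j ≠ i] x j / (i - j)‖ ^ 2 ≤ π ^ 2 * ∑ j ∈ B, ‖x j‖ ^ 2`.
-/

set_option autoImplicit false

open Complex MeasureTheory intervalIntegral Finset

namespace Run7.h752.Hilb

/-- the exponential `exp (i m t)` -/
noncomputable def ex (m : ℤ) (t : ℝ) : ℂ := Complex.exp (((m : ℂ) * t) * I)

lemma ex_cont (m : ℤ) : Continuous (ex m) := by
  unfold ex; fun_prop

lemma ex_zero (t : ℝ) : ex 0 t = 1 := by simp [ex]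

lemma ex_add (m n : ℤ) (t : ℝ) : ex (m + n) t = ex m t * ex n t := by
  unfold ex
  rw [← Complex.exp_add]
  push_cast
  ring_nf

lemma norm_ex (m : ℤ) (t : ℝ) : ‖ex m t‖ = 1 := by
  unfold ex
  have : ((m : ℂ) * t) * I = ((m * t : ℝ) : ℂ) * I := by push_cast; ring
  rw [this, Complex.norm_exp_ofReal_mul_I]

lemma conj_ex (m : ℤ) (t : ℝ) : (starRingEnd ℂ) (ex m t) = ex (-m) t := by
  unfold ex
  rw [← Complex.exp_conj]
  congr 1
  simp

lemma ex_two_pi (m : ℤ) : ex m (2 * Real.pi) = 1 := by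
  unfold ex
  have : ((m : ℂ) * ((2 * Real.pi : ℝ) : ℂ)) * I = (m : ℂ) * (2 * Real.pi * I) := by
    push_cast; ring
  rw [this, Complex.exp_int_mul_two_pi_mul_I]

lemma ex_at_zero (m : ℤ) : ex m 0 = 1 := by simp [ex]

lemma hasDerivAt_ex (m : ℤ) (t : ℝ) : HasDerivAt (ex m) ((m : ℂ) * I * ex m t) t := by
  unfold ex
  have h1 : HasDerivAt (fun t : ℝ => ((m : ℂ) * (t : ℂ)) * I) ((m : ℂ) * I) t := by
    have h0 : HasDerivAt (fun t : ℝ => (t : ℂ)) 1 t := Complex.ofRealCLM.hasDerivAt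
    have := (h0.const_mul (m : ℂ)).mul_const I
    simpa using this
  have := h1.cexp
  simpa [mul_comm] using this

lemma integral_ex (m : ℤ) (hm : m ≠ 0) : ∫ t in (0 : ℝ)..(2 * Real.pi), ex m t = 0 := by
  have hm' : (m : ℂ) ≠ 0 := by exact_mod_cast hm
  have hd : ∀ t ∈ Set.uIcc (0 : ℝ) (2 * Real.pi),
      HasDerivAt (fun t => ex m t / ((m : ℂ) * I)) (ex m t) t := by
    intro t _
    have := (hasDerivAt_ex m t).div_const ((m : ℂ) * I)
    have h2 : ex m t = (m : ℂ) * I * ex m t / ((m : ℂ) * I) := by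
      rw [mul_div_cancel_left₀ _ (mul_ne_zero hm' I_ne_zero)]
    rw [← h2] at this
    exact this
  rw [intervalIntegral.integral_eq_sub_of_hasDerivAt hd ((ex_cont m).intervalIntegrable _ _)]
  rw [ex_two_pi, ex_at_zero]
  simp

lemma integral_mul_ex (m : ℤ) (hm : m ≠ 0) :
    ∫ t in (0 : ℝ)..(2 * Real.pi), ((Real.pi - t : ℝ) : ℂ) * ex m t = 2 * Real.pi * I / m := by
  have hm' : (m : ℂ) ≠ 0 := by exact_mod_cast hm
  have hd : ∀ t ∈ Set.uIcc (0 : ℝ) (2 * Real.pi),
      HasDerivAt (fun t : ℝ => ((Real.pi - t : ℝ) : ℂ) * (ex m t / ((m : ℂ) * I))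
        + ex m t / ((m : ℂ) * I) / ((m : ℂ) * I)) (((Real.pi - t : ℝ) : ℂ) * ex m t) t := by
    intro t _
    have h1 := (hasDerivAt_ex m t).div_const ((m : ℂ) * I)
    have h0 : HasDerivAt (fun t : ℝ => ((Real.pi - t : ℝ) : ℂ)) (-1) t := by
      have := ((hasDerivAt_id t).const_sub Real.pi).ofReal_comp
      simpa using this
    have := (h0.mul h1).add (h1.div_const ((m : ℂ) * I))
    have h2 : (m : ℂ) * I * ex m t / ((m : ℂ) * I) = ex m t := by
      rw [mul_div_cancel_left₀ _ (mul_ne_zero hm' I_ne_zero)]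
    rw [h2] at this
    have h3 : -1 * (ex m t / ((m : ℂ) * I)) + ((Real.pi - t : ℝ) : ℂ) * ex m t
        + ex m t / ((m : ℂ) * I) = ((Real.pi - t : ℝ) : ℂ) * ex m t := by ring
    rw [h3] at this
    exact this
  rw [intervalIntegral.integral_eq_sub_of_hasDerivAt hd
    (by
      apply Continuous.intervalIntegrable
      have := ex_cont m
      fun_prop)]
  rw [ex_two_pi, ex_at_zero]
  push_cast
  field_simp
  ring_nf
  have hI3 : I ^ 3 = -I := by
    rw [pow_succ, I_sq]; ring
  rw [hI3]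
  ring

lemma integral_mul_ex_zero :
    ∫ t in (0 : ℝ)..(2 * Real.pi), ((Real.pi - t : ℝ) : ℂ) * ex 0 t = 0 := by
  simp only [ex_zero, mul_one]
  rw [intervalIntegral.integral_ofReal]
  have : ∫ t in (0 : ℝ)..(2 * Real.pi), (Real.pi - t) = 0 := by
    rw [intervalIntegral.integral_sub (by simp) (by simp), intervalIntegral.integral_const,
      integral_id]
    simp
    ring
  rw [this]; simp

/-- trigonometric polynomial -/
noncomputable def tp (B : Finset ℕ) (x : ℕ → ℂ) (t : ℝ) : ℂ := ∑ j ∈ B, x j * ex j t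

lemma tp_cont (B : Finset ℕ) (x : ℕ → ℂ) : Continuous (tp B x) := by
  unfold tp
  refine continuous_finsetSum _ fun j _ => ?_
  exact continuous_const.mul (ex_cont _)

lemma tp_mul_conj (B : Finset ℕ) (x y : ℕ → ℂ) (t : ℝ) :
    tp B x t * (starRingEnd ℂ) (tp B y t) =
      ∑ i ∈ B, ∑ j ∈ B, (x j * (starRingEnd ℂ) (y i)) * ex ((j : ℤ) - i) t := by
  unfold tp
  rw [map_sum, Finset.sum_mul_sum, Finset.sum_comm]
  refine Finset.sum_congr rfl fun i _ => Finset.sum_congr rfl fun j _ => ?_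
  rw [map_mul, conj_ex, sub_eq_add_neg, ex_add]
  ring

lemma integral_normSq_tp (B : Finset ℕ) (x : ℕ → ℂ) :
    ∫ t in (0 : ℝ)..(2 * Real.pi), ‖tp B x t‖ ^ 2 = 2 * Real.pi * ∑ j ∈ B, ‖x j‖ ^ 2 := by
  have key : ∫ t in (0 : ℝ)..(2 * Real.pi), tp B x t * (starRingEnd ℂ) (tp B x t)
      = 2 * Real.pi * ∑ j ∈ B, ((‖x j‖ ^ 2 : ℝ) : ℂ) := by
    simp_rw [tp_mul_conj]
    rw [intervalIntegral.integral_finsetSum]
    · rw [Finset.mul_sum]
      refine Finset.sum_congr rfl fun i hi => ?_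
      rw [intervalIntegral.integral_finsetSum]
      · rw [Finset.sum_eq_single i]
        · simp only [sub_self]
          rw [intervalIntegral.integral_const_mul]
          simp only [ex_zero]
          rw [intervalIntegral.integral_const, Complex.mul_conj, Complex.normSq_eq_norm_sq]
          simp
          ring
        · intro j _ hji
          rw [intervalIntegral.integral_const_mul, integral_ex _ (by
            intro h
            apply hji
            have : (j : ℤ) = i := by linarith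
            exact_mod_cast this)]
          simp
        · intro h; exact absurd hi h
      · intro j _
        exact (continuous_const.mul (ex_cont _)).intervalIntegrable _ _
    · intro i _
      refine (continuous_finsetSum _ fun j _ => ?_).intervalIntegrable _ _
      exact continuous_const.mul (ex_cont _)
  have h2 : ∀ t, tp B x t * (starRingEnd ℂ) (tp B x t) = ((‖tp B x t‖ ^ 2 : ℝ) : ℂ) := by
    intro t
    rw [Complex.mul_conj, Complex.normSq_eq_norm_sq]
  simp_rw [h2] at key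
  rw [intervalIntegral.integral_ofReal] at key
  have : ((∫ t in (0 : ℝ)..(2 * Real.pi), ‖tp B x t‖ ^ 2 : ℝ) : ℂ)
      = ((2 * Real.pi * ∑ j ∈ B, ‖x j‖ ^ 2 : ℝ) : ℂ) := by
    rw [key]; push_cast; ring
  exact_mod_cast this

lemma bilin (B : Finset ℕ) (x y : ℕ → ℂ) :
    ∫ t in (0 : ℝ)..(2 * Real.pi), ((Real.pi - t : ℝ) : ℂ) *
      (tp B x t * (starRingEnd ℂ) (tp B y t)) =
    2 * Real.pi * I * ∑ i ∈ B, ∑ j ∈ B, if j = i then 0 else
      (x j * (starRingEnd ℂ) (y i)) / ((j : ℂ) - i) := by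
  simp_rw [tp_mul_conj, Finset.mul_sum]
  rw [intervalIntegral.integral_finsetSum]
  · refine Finset.sum_congr rfl fun i _ => ?_
    rw [intervalIntegral.integral_finsetSum]
    · refine Finset.sum_congr rfl fun j _ => ?_
      have h1 : ∀ t : ℝ, ((Real.pi - t : ℝ) : ℂ) * (x j * (starRingEnd ℂ) (y i) * ex ((j : ℤ) - i) t)
          = (x j * (starRingEnd ℂ) (y i)) * (((Real.pi - t : ℝ) : ℂ) * ex ((j : ℤ) - i) t) := by
        intro t; ring
      simp_rw [h1]
      rw [intervalIntegral.integral_const_mul]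
      split_ifs with h
      · subst h
        simp only [sub_self]
        rw [integral_mul_ex_zero]; simp
      · rw [integral_mul_ex _ (by
          intro h'
          apply h
          have : (j : ℤ) = i := by linarith
          exact_mod_cast this)]
        push_cast
        ring
    · intro j _
      apply Continuous.intervalIntegrable
      have := ex_cont ((j : ℤ) - i)
      fun_prop
  · intro i _
    apply Continuous.intervalIntegrable
    refine continuous_finsetSum _ fun j _ => ?_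
    have := ex_cont ((j : ℤ) - i)
    fun_prop

lemma bilin_le (B : Finset ℕ) (x y : ℕ → ℂ) :
    ‖∑ i ∈ B, ∑ j ∈ B, if j = i then 0 else
      (x j * (starRingEnd ℂ) (y i)) / ((j : ℂ) - i)‖ ≤
    Real.pi / 2 * (∑ j ∈ B, ‖x j‖ ^ 2 + ∑ j ∈ B, ‖y j‖ ^ 2) := by
  have hb := bilin B x y
  have hpi := Real.pi_pos
  have h1 : ‖∫ t in (0 : ℝ)..(2 * Real.pi), ((Real.pi - t : ℝ) : ℂ) *
      (tp B x t * (starRingEnd ℂ) (tp B y t))‖ ≤
      ∫ t in (0 : ℝ)..(2 * Real.pi), Real.pi * ((‖tp B x t‖ ^ 2 + ‖tp B y t‖ ^ 2) / 2) := by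
    apply intervalIntegral.norm_integral_le_of_norm_le (by positivity)
    · refine Filter.Eventually.of_forall fun t ht => ?_
      rw [norm_mul, norm_mul, RCLike.norm_conj, Complex.norm_real]
      have h2 : ‖Real.pi - t‖ ≤ Real.pi := by
        rw [Real.norm_eq_abs, abs_le]
        constructor
        · linarith [ht.2]
        · linarith [ht.1]
      have h3 : ‖tp B x t‖ * ‖tp B y t‖ ≤ (‖tp B x t‖ ^ 2 + ‖tp B y t‖ ^ 2) / 2 := by
        nlinarith [sq_nonneg (‖tp B x t‖ - ‖tp B y t‖)]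
      exact mul_le_mul h2 h3 (by positivity) hpi.le
    · apply Continuous.intervalIntegrable
      have := tp_cont B x
      have := tp_cont B y
      fun_prop
  have h4 : ∫ t in (0 : ℝ)..(2 * Real.pi), Real.pi * ((‖tp B x t‖ ^ 2 + ‖tp B y t‖ ^ 2) / 2) =
      Real.pi * Real.pi * (∑ j ∈ B, ‖x j‖ ^ 2 + ∑ j ∈ B, ‖y j‖ ^ 2) := by
    rw [intervalIntegral.integral_const_mul, intervalIntegral.integral_div,
      intervalIntegral.integral_add, integral_normSq_tp, integral_normSq_tp]
    · ring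
    · apply Continuous.intervalIntegrable
      have := tp_cont B x
      fun_prop
    · apply Continuous.intervalIntegrable
      have := tp_cont B y
      fun_prop
  rw [hb, h4, norm_mul] at h1
  have h5 : ‖(2 * Real.pi * I : ℂ)‖ = 2 * Real.pi := by
    simp [abs_of_pos hpi]
  rw [h5] at h1
  have h6 : 0 < 2 * Real.pi := by positivity
  rw [← mul_le_mul_iff_right₀ h6]
  calc _ ≤ _ := h1
    _ = _ := by ring

/-- **Finite Hilbert inequality.** -/
theorem hilbert_ineq (B : Finset ℕ) (x : ℕ → ℂ) :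
    ∑ i ∈ B, ‖∑ j ∈ B, if j = i then 0 else x j / ((i : ℂ) - j)‖ ^ 2 ≤
      Real.pi ^ 2 * ∑ j ∈ B, ‖x j‖ ^ 2 := by
  set u : ℕ → ℂ := fun i => ∑ j ∈ B, if j = i then 0 else x j / ((i : ℂ) - j) with hu
  have hpi := Real.pi_pos
  set U := ∑ i ∈ B, ‖u i‖ ^ 2 with hU
  set X := ∑ j ∈ B, ‖x j‖ ^ 2 with hX
  have h := bilin_le B x (fun i => -(((1 / Real.pi : ℝ) : ℂ) * u i))
  have h1 : ∑ i ∈ B, ∑ j ∈ B, (if j = i then 0 else
      (x j * (starRingEnd ℂ) (-(((1 / Real.pi : ℝ) : ℂ) * u i))) / ((j : ℂ) - i))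
      = ((1 / Real.pi * U : ℝ) : ℂ) := by
    rw [hU]
    push_cast
    rw [Finset.mul_sum]
    refine Finset.sum_congr rfl fun i _ => ?_
    have h2 : ((‖u i‖ : ℂ)) ^ 2 = u i * (starRingEnd ℂ) (u i) := by
      rw [Complex.mul_conj, Complex.normSq_eq_norm_sq]; push_cast; rfl
    rw [h2]
    have h2' : u i = (∑ j ∈ B, if j = i then 0 else x j / ((i : ℂ) - j)) := rfl
    simp only [map_neg, map_mul]
    generalize (starRingEnd ℂ) (u i) = c
    rw [h2', Finset.sum_mul, Finset.mul_sum]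
    apply Finset.sum_congr rfl
    intro j _
    split_ifs with hji
    · simp
    · have h3 : ((j : ℂ) - i) ≠ 0 := by
        intro h'
        apply hji
        have : (j : ℂ) = i := by linear_combination h'
        exact_mod_cast this
      have h4 : ((i : ℂ) - j) ≠ 0 := by
        intro h'
        apply h3
        linear_combination -h'
      have h55 : (starRingEnd ℂ) (1 / (Real.pi : ℂ)) = 1 / (Real.pi : ℂ) := by
        rw [map_div₀, Complex.conj_ofReal, map_one]
      rw [h55]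
      have h5 : (i : ℂ) - j = -((j : ℂ) - i) := by ring
      rw [h5]
      have h6 : (Real.pi : ℂ) ≠ 0 := by exact_mod_cast hpi.ne'
      rw [div_neg]
      ring
  rw [h1, Complex.norm_real] at h
  have h7 : ∑ j ∈ B, ‖-(((1 / Real.pi : ℝ) : ℂ) * u j)‖ ^ 2 = 1 / Real.pi ^ 2 * U := by
    rw [hU, Finset.mul_sum]
    refine Finset.sum_congr rfl fun i _ => ?_
    rw [norm_neg, norm_mul, Complex.norm_real, Real.norm_eq_abs, abs_of_pos (by positivity)]
    field_simp
  rw [h7] at h
  have hU0 : 0 ≤ U := Finset.sum_nonneg fun i _ => by positivity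
  rw [Real.norm_eq_abs, abs_of_nonneg (by positivity)] at h
  have h8 : 1 / Real.pi * U ≤ Real.pi / 2 * X + U / (2 * Real.pi) := by
    refine h.trans (le_of_eq ?_)
    field_simp
    rw [hX]
    try ring
  have h9 : U / (2 * Real.pi) ≤ Real.pi / 2 * X := by
    have : 1 / Real.pi * U = U / (2 * Real.pi) + U / (2 * Real.pi) := by field_simp; ring
    linarith
  have h10 : 0 < 2 * Real.pi := by positivity
  rw [div_le_iff₀ h10] at h9
  calc U ≤ _ := h9
    _ = _ := by ring

end Run7.h752.Hilb
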