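import Mathlib
import Pool.Agent.Run7.h752.Hilb

/-!
# Operators on `ℓ²(ℕ)` given by kernels
-/

set_option autoImplicit false

open scoped ENNReal
open Finset

namespace Run7.h752.Uni

/-- The Hilbert space `ℓ²(ℕ, ℂ)`. -/
noncomputable abbrev E := lp (fun _ : ℕ => ℂ) 2

lemma summable_sq (x : E) : Summable fun i => ‖x i‖ ^ 2 := by
  have h := (lp.memℓp x).summable (by norm_num : 0 < (2 : ℝ≥0∞).toReal)
  simpa using h

lemma norm_sq (x : E) : ‖x‖ ^ 2 = ∑' i, ‖x i‖ ^ 2 := by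
  have h := lp.norm_rpow_eq_tsum (by norm_num : 0 < (2 : ℝ≥0∞).toReal) x
  simpa using h

lemma sum_le (x : E) (s : Finset ℕ) : ∑ i ∈ s, ‖x i‖ ^ 2 ≤ ‖x‖ ^ 2 := by
  rw [norm_sq]
  exact (summable_sq x).sum_le_tsum s (fun i _ => by positivity)

lemma coord_le (x : E) (i : ℕ) : ‖x i‖ ≤ ‖x‖ :=
  lp.norm_apply_le_norm (by norm_num) x i

lemma memℓp_of (f : ℕ → ℂ) (C : ℝ) (h : ∀ n : ℕ, ∑ i ∈ range n, ‖f i‖ ^ 2 ≤ C) :
    Memℓp f 2 := by
  apply memℓp_gen
  have : Summable fun i => ‖f i‖ ^ 2 := by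
    refine summable_of_sum_range_le (fun i => by positivity) h
  simpa using this

lemma norm_sq_le_of (x : E) (C : ℝ) (h : ∀ n : ℕ, ∑ i ∈ range n, ‖x i‖ ^ 2 ≤ C) :
    ‖x‖ ^ 2 ≤ C := by
  rw [norm_sq]
  exact Summable.tsum_le_of_sum_range_le (summable_sq x) h

/-- the linear map on sequences given by a kernel `a i j` supported in `j < 2 i + 2`. -/
noncomputable def ker (a : ℕ → ℕ → ℂ) : (ℕ → ℂ) →ₗ[ℂ] (ℕ → ℂ) where
  toFun x i := ∑ j ∈ range (2 * i + 2), a i j * x j
  map_add' x y := by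
    ext i
    simp [mul_add, Finset.sum_add_distrib]
  map_smul' c x := by
    ext i
    simp only [Pi.smul_apply, smul_eq_mul, RingHom.id_apply, Finset.mul_sum]
    exact Finset.sum_congr rfl fun j _ => by ring

/-- the kernel `a` gives an operator with norm at most `C` -/
def BddK (a : ℕ → ℕ → ℂ) (C : ℝ) : Prop :=
  0 ≤ C ∧ ∀ (x : E) (n : ℕ), ∑ i ∈ range n, ‖ker a x i‖ ^ 2 ≤ C ^ 2 * ‖x‖ ^ 2

open Classical in
/-- the operator with kernel `a` -/
noncomputable def op (a : ℕ → ℕ → ℂ) : E →L[ℂ] E :=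
  if h : ∃ C, BddK a C then
    LinearMap.mkContinuous
      { toFun := fun x => ⟨ker a x, memℓp_of _ _ (h.choose_spec.2 x)⟩
        map_add' := fun x y => by
          ext i
          change ker a (⇑(x + y)) i = ker a x i + ker a y i
          rw [lp.coeFn_add, map_add]
          rfl
        map_smul' := fun c x => by
          ext i
          change ker a (⇑(c • x)) i = c • ker a x i
          rw [lp.coeFn_smul, map_smul]
          rfl }
      h.choose
      (fun x => by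
        have h1 := norm_sq_le_of (⟨ker a x, memℓp_of _ _ (h.choose_spec.2 x)⟩ : E) _
          (h.choose_spec.2 x)
        have h2 : 0 ≤ h.choose := h.choose_spec.1
        have h3 : ‖(⟨ker a x, memℓp_of _ _ (h.choose_spec.2 x)⟩ : E)‖ ^ 2
            ≤ (h.choose * ‖x‖) ^ 2 := by
          rw [mul_pow]; exact h1
        exact abs_le_of_sq_le_sq' h3 (by positivity) |>.2)
  else 0

lemma op_apply {a : ℕ → ℕ → ℂ} {C : ℝ} (h : BddK a C) (x : E) (i : ℕ) :
    op a x i = ∑ j ∈ range (2 * i + 2), a i j * x j := by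
  have h' : ∃ C, BddK a C := ⟨C, h⟩
  rw [op, dif_pos h']
  rfl

lemma norm_op_le {a : ℕ → ℕ → ℂ} {C : ℝ} (h : BddK a C) : ‖op a‖ ≤ C := by
  refine ContinuousLinearMap.opNorm_le_bound _ h.1 fun x => ?_
  have h3 : ‖op a x‖ ^ 2 ≤ (C * ‖x‖) ^ 2 := by
    rw [mul_pow]
    apply norm_sq_le_of
    intro n
    refine le_trans (le_of_eq ?_) (h.2 x n)
    refine Finset.sum_congr rfl fun i _ => ?_
    rw [op_apply h]
    rfl
  have hC := h.1
  exact abs_le_of_sq_le_sq' h3 (by positivity) |>.2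

/-! ### dyadic blocks -/

/-- block index -/
def lg (i : ℕ) : ℕ := Nat.log 2 (i + 1)

/-- the `k`-th block -/
def blk (k : ℕ) : Finset ℕ := Finset.Ico (2 ^ k - 1) (2 ^ (k + 1) - 1)

lemma mem_blk {i k : ℕ} : i ∈ blk k ↔ lg i = k := by
  unfold blk lg
  rw [Finset.mem_Ico]
  have h1 : 0 < 2 ^ k := by positivity
  have h2 : 0 < 2 ^ (k + 1) := by positivity
  rw [Nat.log_eq_iff (Or.inr ⟨by norm_num, by omega⟩)]
  constructor
  · rintro ⟨h3, h4⟩
    constructor <;> omega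
  · rintro ⟨h3, h4⟩
    constructor <;> omega

lemma blk_card (k : ℕ) : (blk k).card = 2 ^ k := by
  unfold blk
  rw [Nat.card_Ico, pow_succ]
  have h1 : 0 < 2 ^ k := by positivity
  omega

lemma blk_subset_range (i : ℕ) : blk (lg i) ⊆ range (2 * i + 2) := by
  intro j hj
  have hi : i ∈ blk (lg i) := mem_blk.2 rfl
  unfold blk at hi hj
  rw [Finset.mem_Ico] at hi hj
  rw [Finset.mem_range]
  rw [pow_succ] at hj
  omega

lemma lg_mono {i j : ℕ} (h : i ≤ j) : lg i ≤ lg j := by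
  unfold lg
  exact Nat.log_mono_right (by omega)

lemma lg_lt_iff {i k : ℕ} : lg i < k ↔ i < 2 ^ k - 1 := by
  unfold lg
  rw [Nat.log_lt_iff_lt_pow (by norm_num) (by omega)]
  omega

/-- a kernel supported on the diagonal blocks, with uniform block bounds, is bounded -/
lemma bddK_of_blocks {a : ℕ → ℕ → ℂ} {C : ℝ} (hC : 0 ≤ C)
    (hsupp : ∀ i j, lg i ≠ lg j → a i j = 0)
    (hb : ∀ (k : ℕ) (x : ℕ → ℂ), ∑ i ∈ blk k, ‖∑ j ∈ blk k, a i j * x j‖ ^ 2 ≤
      C ^ 2 * ∑ j ∈ blk k, ‖x j‖ ^ 2) : BddK a C := by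
  refine ⟨hC, fun x n => ?_⟩
  have hker : ∀ i, ker a x i = ∑ j ∈ blk (lg i), a i j * x j := by
    intro i
    change ∑ j ∈ range (2 * i + 2), a i j * x j = _
    symm
    refine Finset.sum_subset (blk_subset_range i) fun j _ hj => ?_
    have : lg i ≠ lg j := by
      intro h
      exact hj (mem_blk.2 h.symm)
    rw [hsupp i j this, zero_mul]
  -- all the blocks up to `n`
  have hsub : range n ⊆ (range (n + 1)).biUnion blk := by
    intro i hi
    rw [Finset.mem_range] at hi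
    rw [Finset.mem_biUnion]
    refine ⟨lg i, ?_, mem_blk.2 rfl⟩
    rw [Finset.mem_range]
    have : lg i ≤ i := by
      unfold lg
      have := Nat.log_lt_self 2 (x := i + 1) (by omega)
      omega
    omega
  have hdisj : (↑(range (n + 1)) : Set ℕ).PairwiseDisjoint blk := by
    intro k _ l _ hkl
    rw [Function.onFun, Finset.disjoint_left]
    intro i hi hi'
    exact hkl ((mem_blk.1 hi).symm.trans (mem_blk.1 hi'))
  calc ∑ i ∈ range n, ‖ker a x i‖ ^ 2
      ≤ ∑ i ∈ (range (n + 1)).biUnion blk, ‖ker a x i‖ ^ 2 :=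
        Finset.sum_le_sum_of_subset_of_nonneg hsub (fun i _ _ => by positivity)
    _ = ∑ k ∈ range (n + 1), ∑ i ∈ blk k, ‖ker a x i‖ ^ 2 := Finset.sum_biUnion hdisj
    _ ≤ ∑ k ∈ range (n + 1), C ^ 2 * ∑ j ∈ blk k, ‖x j‖ ^ 2 := by
        refine Finset.sum_le_sum fun k _ => ?_
        refine le_trans (le_of_eq ?_) (hb k x)
        refine Finset.sum_congr rfl fun i hi => ?_
        rw [hker, mem_blk.1 hi]
    _ = C ^ 2 * ∑ j ∈ (range (n + 1)).biUnion blk, ‖x j‖ ^ 2 := by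
        rw [← Finset.mul_sum, Finset.sum_biUnion hdisj]
    _ ≤ C ^ 2 * ‖x‖ ^ 2 := by
        refine mul_le_mul_of_nonneg_left (sum_le x _) (by positivity)

/-! ### the harmonic numbers -/

/-- `H_{2^k}` -/
noncomputable def hh (k : ℕ) : ℝ := ∑ m ∈ range (2 ^ k), (1 : ℝ) / (m + 1)

lemma hh_pos (k : ℕ) : 0 < hh k := by
  unfold hh
  apply Finset.sum_pos
  · intro i _; positivity
  · exact ⟨0, by simp⟩

lemma hh_mono {k l : ℕ} (h : k ≤ l) : hh k ≤ hh l := by
  unfold hh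
  apply Finset.sum_le_sum_of_subset_of_nonneg
  · intro i hi
    rw [Finset.mem_range] at *
    exact lt_of_lt_of_le hi (Nat.pow_le_pow_right (by norm_num) h)
  · intro i _ _; positivity

lemma hh_succ_ge (k : ℕ) : hh k + 1 / 2 ≤ hh (k + 1) := by
  unfold hh
  have h1 : range (2 ^ (k + 1)) = range (2 ^ k) ∪ Finset.Ico (2 ^ k) (2 ^ (k + 1)) := by
    ext i
    simp only [Finset.mem_range, Finset.mem_union, Finset.mem_Ico]
    have : 2 ^ k ≤ 2 ^ (k + 1) := Nat.pow_le_pow_right (by norm_num) (by omega)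
    omega
  rw [h1, Finset.sum_union]
  · gcongr
    have h2 : ∀ i ∈ Finset.Ico ((2 : ℕ) ^ k) (2 ^ (k + 1)),
        (1 : ℝ) / 2 ^ (k + 1) ≤ 1 / ((i : ℝ) + 1) := by
      intro i hi
      rw [Finset.mem_Ico] at hi
      have h3 : (i : ℝ) + 1 ≤ 2 ^ (k + 1) := by
        have : i + 1 ≤ 2 ^ (k + 1) := hi.2
        exact_mod_cast this
      exact one_div_le_one_div_of_le (by positivity) h3
    have h4 := Finset.card_nsmul_le_sum _ _ _ h2
    rw [Nat.card_Ico] at h4
    refine le_trans (le_of_eq ?_) h4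
    have h5 : 2 ^ (k + 1) - 2 ^ k = 2 ^ k := by rw [pow_succ]; omega
    rw [h5, nsmul_eq_mul, pow_succ]
    push_cast
    field_simp
  · rw [Finset.disjoint_left]
    intro i hi hi'
    rw [Finset.mem_range] at hi
    rw [Finset.mem_Ico] at hi'
    omega

lemma hh_succ_le (k : ℕ) : hh (k + 1) ≤ hh k + 1 := by
  unfold hh
  have h1 : range (2 ^ (k + 1)) = range (2 ^ k) ∪ Finset.Ico (2 ^ k) (2 ^ (k + 1)) := by
    ext i
    simp only [Finset.mem_range, Finset.mem_union, Finset.mem_Ico]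
    have : 2 ^ k ≤ 2 ^ (k + 1) := Nat.pow_le_pow_right (by norm_num) (by omega)
    omega
  rw [h1, Finset.sum_union]
  · gcongr
    have h2 : ∀ i ∈ Finset.Ico ((2 : ℕ) ^ k) (2 ^ (k + 1)),
        1 / ((i : ℝ) + 1) ≤ (1 : ℝ) / 2 ^ k := by
      intro i hi
      rw [Finset.mem_Ico] at hi
      have h3 : (2 : ℝ) ^ k ≤ (i : ℝ) + 1 := by
        have : 2 ^ k ≤ i + 1 := by omega
        exact_mod_cast this
      exact one_div_le_one_div_of_le (by positivity) h3
    have h4 := Finset.sum_le_card_nsmul _ _ _ h2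
    rw [Nat.card_Ico] at h4
    refine le_trans h4 (le_of_eq ?_)
    have h5 : 2 ^ (k + 1) - 2 ^ k = 2 ^ k := by rw [pow_succ]; omega
    rw [h5, nsmul_eq_mul]
    push_cast
    field_simp
  · rw [Finset.disjoint_left]
    intro i hi hi'
    rw [Finset.mem_range] at hi
    rw [Finset.mem_Ico] at hi'
    omega

lemma hh_ge (k : ℕ) : (k : ℝ) / 2 ≤ hh k := by
  induction k with
  | zero => simpa using (hh_pos 0).le
  | succ k ih =>
    have := hh_succ_ge k
    push_cast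
    linarith

lemma one_le_hh (k : ℕ) : 1 ≤ hh k := by
  have h0 : hh 0 = 1 := by simp [hh]
  rw [← h0]
  exact hh_mono (Nat.zero_le k)

end Run7.h752.Uni
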