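import Mathlib
import Pool.Agent.Run7.h752.Ops

/-!
# The kernels used for the construction
-/

set_option autoImplicit false

open scoped ENNReal
open Finset

namespace Run7.h752.Uni

/-- basis vectors -/
noncomputable def e (i : ℕ) : E := lp.single 2 i (1 : ℂ)

lemma e_apply (i j : ℕ) : e i j = if j = i then 1 else 0 := by
  unfold e
  by_cases h : j = i
  · subst h; simp
  · rw [if_neg h, lp.single_apply_ne _ _ _ h]

lemma norm_e (i : ℕ) : ‖e i‖ = 1 := by
  unfold e
  rw [lp.norm_single (by norm_num)]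
  simp

lemma ext_e {A B : E →L[ℂ] E} (h : ∀ j, A (e j) = B (e j)) : A = B := by
  apply lp.ext_continuousLinearMap (by norm_num)
  intro i
  ext1
  simpa [e] using h i

/-- the kernel is supported in `j < 2 i + 2` -/
def Supp (a : ℕ → ℕ → ℂ) : Prop := ∀ i j, 2 * i + 2 ≤ j → a i j = 0

lemma op_e {a : ℕ → ℕ → ℂ} {C : ℝ} (h : BddK a C) (hs : Supp a) (i j : ℕ) :
    op a (e j) i = a i j := by
  rw [op_apply h]
  by_cases hj : j ∈ range (2 * i + 2)
  · rw [Finset.sum_eq_single j]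
    · rw [e_apply, if_pos rfl, mul_one]
    · intro l _ hl
      rw [e_apply, if_neg hl, mul_zero]
    · intro h'; exact absurd hj h'
  · rw [Finset.sum_eq_zero]
    · rw [Finset.mem_range, not_lt] at hj
      exact (hs i j hj).symm
    · intro l hl
      rw [e_apply, if_neg (by rintro rfl; exact hj hl), mul_zero]

lemma inner_e_left (i : ℕ) (x : E) : inner ℂ (e i) x = x i := by
  unfold e
  rw [lp.inner_single_left]
  simp

lemma op_selfAdjoint {a : ℕ → ℕ → ℂ} {C : ℝ} (h : BddK a C) (hs : Supp a)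
    (hsym : ∀ i j, (starRingEnd ℂ) (a i j) = a j i) : IsSelfAdjoint (op a) := by
  rw [ContinuousLinearMap.isSelfAdjoint_iff']
  apply ext_e
  intro j
  ext i
  rw [op_e h hs, ← inner_e_left, ContinuousLinearMap.adjoint_inner_right,
    ← inner_conj_symm, inner_e_left, op_e h hs, hsym]

/-! ### Schur test -/

lemma schur (B : Finset ℕ) (w : ℕ → ℕ → ℝ) (hw : ∀ i j, 0 ≤ w i j)
    (h1 : ∀ i ∈ B, ∑ j ∈ B, w i j ≤ 1) (h2 : ∀ j ∈ B, ∑ i ∈ B, w i j ≤ 1) (x : ℕ → ℂ) :
    ∑ i ∈ B, ‖∑ j ∈ B, (w i j : ℂ) * x j‖ ^ 2 ≤ ∑ j ∈ B, ‖x j‖ ^ 2 := by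
  have h3 : ∀ i ∈ B, ‖∑ j ∈ B, (w i j : ℂ) * x j‖ ^ 2 ≤ ∑ j ∈ B, w i j * ‖x j‖ ^ 2 := by
    intro i hi
    have h4 : ‖∑ j ∈ B, (w i j : ℂ) * x j‖ ≤ ∑ j ∈ B, w i j * ‖x j‖ := by
      refine (norm_sum_le _ _).trans (le_of_eq ?_)
      refine Finset.sum_congr rfl fun j _ => ?_
      rw [norm_mul, Complex.norm_real, Real.norm_eq_abs, abs_of_nonneg (hw i j)]
    have h5 : (∑ j ∈ B, w i j * ‖x j‖) ^ 2 ≤ (∑ j ∈ B, w i j) * ∑ j ∈ B, w i j * ‖x j‖ ^ 2 := by
      apply Finset.sum_sq_le_sum_mul_sum_of_sq_le_mul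
      · intro j _; exact hw i j
      · intro j _; have := hw i j; positivity
      · intro j _; exact le_of_eq (by ring)
    have h6 : 0 ≤ ∑ j ∈ B, w i j * ‖x j‖ ^ 2 :=
      Finset.sum_nonneg fun j _ => by have := hw i j; positivity
    calc ‖∑ j ∈ B, (w i j : ℂ) * x j‖ ^ 2 ≤ (∑ j ∈ B, w i j * ‖x j‖) ^ 2 := by gcongr
      _ ≤ (∑ j ∈ B, w i j) * ∑ j ∈ B, w i j * ‖x j‖ ^ 2 := h5
      _ ≤ 1 * ∑ j ∈ B, w i j * ‖x j‖ ^ 2 := by gcongr; exact h1 i hi
      _ = _ := one_mul _
  calc ∑ i ∈ B, ‖∑ j ∈ B, (w i j : ℂ) * x j‖ ^ 2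
      ≤ ∑ i ∈ B, ∑ j ∈ B, w i j * ‖x j‖ ^ 2 := Finset.sum_le_sum h3
    _ = ∑ j ∈ B, (∑ i ∈ B, w i j) * ‖x j‖ ^ 2 := by
        rw [Finset.sum_comm]
        refine Finset.sum_congr rfl fun j _ => ?_
        rw [Finset.sum_mul]
    _ ≤ ∑ j ∈ B, 1 * ‖x j‖ ^ 2 := by
        refine Finset.sum_le_sum fun j hj => ?_
        have := h2 j hj
        gcongr
    _ = _ := by simp

/-! ### the kernels -/

open Classical in
/-- kernel of the selfadjoint part -/
noncomputable def dK (J : Set ℕ) (i j : ℕ) : ℂ :=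
  if lg i = lg j ∧ lg i ∈ J ∧ i ≠ j then ((1 / (2 * hh (lg i) * |(i : ℝ) - j|) : ℝ) : ℂ) else 0

open Classical in
/-- kernel of the skew part -/
noncomputable def gK (J : Set ℕ) (i j : ℕ) : ℂ :=
  if lg i = lg j ∧ lg i ∈ J ∧ i ≠ j then ((1 / (2 * hh (lg i) * ((i : ℝ) - j)) : ℝ) : ℂ) else 0

/-- kernel of the weighted shift -/
noncomputable def wK (δ : ℕ → ℝ) (i j : ℕ) : ℂ := if i = j + 1 then (δ j : ℂ) else 0

/-- kernel of the coordinate projection -/
noncomputable def pK (N : ℕ) (i j : ℕ) : ℂ := if i = j ∧ i < N then 1 else 0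

lemma supp_of_lg {a : ℕ → ℕ → ℂ} (h : ∀ i j, lg i ≠ lg j → a i j = 0) : Supp a := by
  intro i j hij
  apply h
  intro hl
  have : j ∈ range (2 * i + 2) := blk_subset_range i (mem_blk.2 hl.symm)
  rw [Finset.mem_range] at this
  omega

lemma dK_supp (J : Set ℕ) : ∀ i j, lg i ≠ lg j → dK J i j = 0 := by
  intro i j h
  unfold dK
  rw [if_neg]
  exact fun h' => h h'.1

lemma gK_supp (J : Set ℕ) : ∀ i j, lg i ≠ lg j → gK J i j = 0 := by
  intro i j h
  unfold gK
  rw [if_neg]
  exact fun h' => h h'.1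

lemma wK_supp (δ : ℕ → ℝ) : Supp (wK δ) := by
  intro i j hij
  unfold wK
  rw [if_neg]
  omega

lemma pK_supp (N : ℕ) : Supp (pK N) := by
  intro i j hij
  unfold pK
  rw [if_neg]
  omega

lemma left_sum_le (k i : ℕ) (hi : i ∈ blk k) :
    ∑ j ∈ (blk k).filter (· < i), 1 / ((i : ℝ) - j) ≤ hh k := by
  have hinj : Set.InjOn (fun j => i - j - 1) (↑((blk k).filter (· < i)) : Set ℕ) := by
    intro a ha b hb hab
    simp only [Finset.coe_filter, Set.mem_ofPred_eq] at ha hb
    simp only at hab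
    omega
  have h1 : ∑ j ∈ (blk k).filter (· < i), 1 / ((i : ℝ) - j) =
      ∑ m ∈ ((blk k).filter (· < i)).image (fun j => i - j - 1), (1 : ℝ) / (m + 1) := by
    rw [Finset.sum_image hinj]
    refine Finset.sum_congr rfl fun j hj => ?_
    rw [Finset.mem_filter] at hj
    have : ((i - j - 1 : ℕ) : ℝ) = (i : ℝ) - j - 1 := by
      have h2 : j + 1 ≤ i := hj.2
      rw [Nat.sub_sub, Nat.cast_sub h2]
      push_cast; ring
    rw [this]
    congr 1
    ring
  rw [h1]
  unfold hh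
  apply Finset.sum_le_sum_of_subset_of_nonneg
  · intro m hm
    rw [Finset.mem_image] at hm
    obtain ⟨j, hj, rfl⟩ := hm
    rw [Finset.mem_filter] at hj
    unfold blk at hj hi
    rw [Finset.mem_Ico] at hj hi
    rw [Finset.mem_range]
    have := pow_succ 2 k
    omega
  · intro m _ _; positivity

lemma right_sum_le (k i : ℕ) (hi : i ∈ blk k) :
    ∑ j ∈ (blk k).filter (i < ·), 1 / ((j : ℝ) - i) ≤ hh k := by
  have hinj : Set.InjOn (fun j => j - i - 1) (↑((blk k).filter (i < ·)) : Set ℕ) := by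
    intro a ha b hb hab
    simp only [Finset.coe_filter, Set.mem_ofPred_eq] at ha hb
    simp only at hab
    omega
  have h1 : ∑ j ∈ (blk k).filter (i < ·), 1 / ((j : ℝ) - i) =
      ∑ m ∈ ((blk k).filter (i < ·)).image (fun j => j - i - 1), (1 : ℝ) / (m + 1) := by
    rw [Finset.sum_image hinj]
    refine Finset.sum_congr rfl fun j hj => ?_
    rw [Finset.mem_filter] at hj
    have : ((j - i - 1 : ℕ) : ℝ) = (j : ℝ) - i - 1 := by
      have h2 : i + 1 ≤ j := hj.2
      rw [Nat.sub_sub, Nat.cast_sub h2]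
      push_cast; ring
    rw [this]
    congr 1
    ring
  rw [h1]
  unfold hh
  apply Finset.sum_le_sum_of_subset_of_nonneg
  · intro m hm
    rw [Finset.mem_image] at hm
    obtain ⟨j, hj, rfl⟩ := hm
    rw [Finset.mem_filter] at hj
    unfold blk at hj hi
    rw [Finset.mem_Ico] at hj hi
    rw [Finset.mem_range]
    have := pow_succ 2 k
    omega
  · intro m _ _; positivity

/-- the real weights of the selfadjoint part -/
noncomputable def wt (k i j : ℕ) : ℝ := if i = j then 0 else 1 / (2 * hh k * |(i : ℝ) - j|)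

lemma wt_nonneg (k i j : ℕ) : 0 ≤ wt k i j := by
  unfold wt
  have := hh_pos k
  split_ifs
  · exact le_rfl
  · positivity

lemma wt_symm (k i j : ℕ) : wt k i j = wt k j i := by
  unfold wt
  rw [abs_sub_comm]
  by_cases h : i = j
  · subst h; rfl
  · rw [if_neg h, if_neg (Ne.symm h)]

lemma wt_row (k i : ℕ) : ∑ j ∈ blk k, wt k i j =
    1 / (2 * hh k) * (∑ j ∈ (blk k).filter (· < i), 1 / ((i : ℝ) - j) +
      ∑ j ∈ (blk k).filter (i < ·), 1 / ((j : ℝ) - i)) := by
  have hp := hh_pos k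
  rw [mul_add, Finset.sum_filter, Finset.sum_filter, Finset.mul_sum, Finset.mul_sum,
    ← Finset.sum_add_distrib]
  refine Finset.sum_congr rfl fun j _ => ?_
  unfold wt
  rcases lt_trichotomy j i with h | h | h
  · have h' : (j : ℝ) < i := by exact_mod_cast h
    rw [if_neg (by omega), if_pos h, if_neg (by omega), abs_of_pos (by linarith)]
    have : (i : ℝ) - j ≠ 0 := by linarith
    field_simp
    ring
  · subst h
    simp
  · have h' : (i : ℝ) < j := by exact_mod_cast h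
    rw [if_neg (by omega), if_neg (by omega), if_pos h, abs_of_neg (by linarith)]
    have : (j : ℝ) - i ≠ 0 := by linarith
    have : (i : ℝ) - j ≠ 0 := by linarith
    rw [neg_sub]
    field_simp
    ring

lemma wt_row_le (k i : ℕ) (hi : i ∈ blk k) : ∑ j ∈ blk k, wt k i j ≤ 1 := by
  have hp := hh_pos k
  rw [wt_row]
  have h1 := left_sum_le k i hi
  have h2 := right_sum_le k i hi
  calc _ ≤ 1 / (2 * hh k) * (hh k + hh k) := by gcongr
    _ = 1 := by field_simp; ring

lemma bddK_dK (J : Set ℕ) : BddK (dK J) 1 := by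
  apply bddK_of_blocks zero_le_one (dK_supp J)
  intro k x
  rw [one_pow, one_mul]
  by_cases hk : k ∈ J
  · have h1 : ∀ i ∈ blk k, ‖∑ j ∈ blk k, dK J i j * x j‖ ^ 2
        = ‖∑ j ∈ blk k, (wt k i j : ℂ) * x j‖ ^ 2 := by
      intro i hi
      congr 2
      refine Finset.sum_congr rfl fun j hj => ?_
      unfold dK wt
      rw [mem_blk] at hi hj
      by_cases hij : i = j
      · subst hij
        simp
      · rw [if_pos ⟨hi.trans hj.symm, by rw [hi]; exact hk, hij⟩, if_neg hij, hi]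
    rw [Finset.sum_congr rfl h1]
    apply schur _ _ (wt_nonneg k) (wt_row_le k)
    intro j hj
    simp_rw [wt_symm k _ j]
    exact wt_row_le k j hj
  · have h1 : ∀ i ∈ blk k, ‖∑ j ∈ blk k, dK J i j * x j‖ ^ 2 = 0 := by
      intro i hi
      rw [Finset.sum_eq_zero]
      · simp
      · intro j _
        unfold dK
        rw [if_neg, zero_mul]
        rintro ⟨_, h, _⟩
        rw [mem_blk.1 hi] at h
        exact hk h
    rw [Finset.sum_congr rfl h1]
    simp only [Finset.sum_const_zero]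
    exact Finset.sum_nonneg fun j _ => by positivity

lemma bddK_gK (J : Set ℕ) (κ : ℕ) (hJ : ∀ k ∈ J, κ ≤ k) :
    BddK (gK J) (Real.pi / (2 * hh κ)) := by
  have hκ := hh_pos κ
  have hpi := Real.pi_pos
  apply bddK_of_blocks (by positivity) (gK_supp J)
  intro k x
  by_cases hk : k ∈ J
  · have hkp := hh_pos k
    have hkκ : hh κ ≤ hh k := hh_mono (hJ k hk)
    have h1 : ∀ i ∈ blk k, ‖∑ j ∈ blk k, gK J i j * x j‖ ^ 2
        = (1 / (2 * hh k)) ^ 2 * ‖∑ j ∈ blk k, if j = i then 0 else x j / ((i : ℂ) - j)‖ ^ 2 := by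
      intro i hi
      have h2 : ∑ j ∈ blk k, gK J i j * x j = ((1 / (2 * hh k) : ℝ) : ℂ) *
          ∑ j ∈ blk k, if j = i then 0 else x j / ((i : ℂ) - j) := by
        rw [Finset.mul_sum]
        refine Finset.sum_congr rfl fun j hj => ?_
        unfold gK
        rw [mem_blk] at hi hj
        by_cases hij : i = j
        · subst hij
          simp
        · rw [if_pos ⟨hi.trans hj.symm, by rw [hi]; exact hk, hij⟩, if_neg (Ne.symm hij), hi]
          push_cast
          have h3 : (i : ℂ) - j ≠ 0 := by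
            intro h'
            apply hij
            have : (i : ℂ) = j := by linear_combination h'
            exact_mod_cast this
          have h4 : (hh k : ℂ) ≠ 0 := by exact_mod_cast hkp.ne'
          field_simp
      rw [h2, norm_mul, mul_pow, Complex.norm_real, Real.norm_eq_abs, sq_abs]
    rw [Finset.sum_congr rfl h1, ← Finset.mul_sum]
    have h5 := Hilb.hilbert_ineq (blk k) x
    have h6 : 0 ≤ ∑ j ∈ blk k, ‖x j‖ ^ 2 := Finset.sum_nonneg fun j _ => by positivity
    calc _ ≤ (1 / (2 * hh k)) ^ 2 * (Real.pi ^ 2 * ∑ j ∈ blk k, ‖x j‖ ^ 2) := by gcongr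
      _ ≤ (1 / (2 * hh κ)) ^ 2 * (Real.pi ^ 2 * ∑ j ∈ blk k, ‖x j‖ ^ 2) := by gcongr
      _ = _ := by ring
  · have h1 : ∀ i ∈ blk k, ‖∑ j ∈ blk k, gK J i j * x j‖ ^ 2 = 0 := by
      intro i hi
      rw [Finset.sum_eq_zero]
      · simp
      · intro j _
        unfold gK
        rw [if_neg, zero_mul]
        rintro ⟨_, h, _⟩
        rw [mem_blk.1 hi] at h
        exact hk h
    rw [Finset.sum_congr rfl h1]
    simp only [Finset.sum_const_zero]
    exact mul_nonneg (by positivity) (Finset.sum_nonneg fun j _ => by positivity)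

lemma bddK_wK (δ : ℕ → ℝ) (c : ℝ) (hc : 0 ≤ c) (hδ : ∀ i, |δ i| ≤ c) : BddK (wK δ) c := by
  refine ⟨hc, fun x n => ?_⟩
  have h1 : ∀ i, ker (wK δ) x (i + 1) = (δ i : ℂ) * x i := by
    intro i
    change ∑ j ∈ range (2 * (i + 1) + 2), wK δ (i + 1) j * x j = _
    rw [Finset.sum_eq_single i]
    · unfold wK; rw [if_pos rfl]
    · intro j _ hj
      unfold wK
      rw [if_neg (by omega), zero_mul]
    · intro h
      exfalso
      apply h
      rw [Finset.mem_range]; omega
  have h0 : ker (wK δ) x 0 = 0 := by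
    change ∑ j ∈ range (2 * 0 + 2), wK δ 0 j * x j = _
    apply Finset.sum_eq_zero
    intro j _
    unfold wK
    rw [if_neg (by omega), zero_mul]
  have h2 : ∑ i ∈ range (n + 1), ‖ker (wK δ) x i‖ ^ 2 ≤ c ^ 2 * ‖x‖ ^ 2 := by
    rw [Finset.sum_range_succ', h0]
    simp only [h1, norm_zero, ne_eq, OfNat.ofNat_ne_zero, not_false_eq_true, zero_pow, add_zero]
    calc ∑ i ∈ range n, ‖(δ i : ℂ) * x i‖ ^ 2 ≤ ∑ i ∈ range n, c ^ 2 * ‖x i‖ ^ 2 := by
          refine Finset.sum_le_sum fun i _ => ?_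
          rw [norm_mul, mul_pow, Complex.norm_real, Real.norm_eq_abs]
          have := hδ i
          gcongr
      _ = c ^ 2 * ∑ i ∈ range n, ‖x i‖ ^ 2 := by rw [Finset.mul_sum]
      _ ≤ c ^ 2 * ‖x‖ ^ 2 := by
          have := sum_le x (range n)
          gcongr
  refine le_trans ?_ h2
  apply Finset.sum_le_sum_of_subset_of_nonneg
  · intro i hi; rw [Finset.mem_range] at *; omega
  · intro i _ _; positivity

lemma bddK_pK (N : ℕ) : BddK (pK N) 1 := by
  refine ⟨zero_le_one, fun x n => ?_⟩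
  rw [one_pow, one_mul]
  refine le_trans ?_ (sum_le x (range n))
  refine Finset.sum_le_sum fun i _ => ?_
  have h1 : ker (pK N) x i = if i < N then x i else 0 := by
    change ∑ j ∈ range (2 * i + 2), pK N i j * x j = _
    rw [Finset.sum_eq_single i]
    · unfold pK
      by_cases h : i < N
      · simp [h]
      · simp [h]
    · intro j _ hj
      unfold pK
      rw [if_neg (by rintro ⟨rfl, _⟩; exact hj rfl), zero_mul]
    · intro h
      exfalso
      apply h
      rw [Finset.mem_range]; omega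
  rw [h1]
  split_ifs
  · exact le_rfl
  · simp

end Run7.h752.Uni
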