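import Mathlib

/-!
# Polynomial lemmas
-/

set_option autoImplicit false

open Polynomial

namespace Run7.h752.Uni

/-- a polynomial with a given jet `X ^ i` at `0` which is small on `[-1, 1]` -/
lemma exists_small_jet (i N : ℕ) (hi : 1 ≤ i) (η : ℝ) (hη : 0 < η) :
    ∃ q : ℂ[X], X ^ N ∣ q - X ^ i ∧ ∀ t : ℝ, |t| ≤ 1 → ‖q.eval (t : ℂ)‖ ≤ η := by
  -- choose `M`
  obtain ⟨M, hM⟩ : ∃ M : ℕ, ∀ t : ℝ, |t| ≤ 1 → η < |t| → (N : ℝ) * (1 - t ^ 2) ^ M ≤ η := by
    by_cases h1 : η < 1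
    · have h2 : 0 ≤ 1 - η ^ 2 := by nlinarith
      have h3 : 1 - η ^ 2 < 1 := by nlinarith
      have h4 := (tendsto_pow_atTop_nhds_zero_of_lt_one h2 h3).const_mul (N : ℝ)
      rw [mul_zero] at h4
      obtain ⟨M, hM⟩ := (h4.eventually (gt_mem_nhds hη)).exists
      refine ⟨M, fun t ht1 ht2 => le_trans ?_ hM.le⟩
      have h5 : 0 ≤ 1 - t ^ 2 := by
        have : t ^ 2 ≤ 1 := by rw [← sq_abs]; nlinarith [abs_nonneg t]
        linarith
      have h6 : 1 - t ^ 2 ≤ 1 - η ^ 2 := by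
        have : η ^ 2 ≤ t ^ 2 := by rw [← sq_abs t]; nlinarith
        linarith
      gcongr
    · refine ⟨0, fun t ht1 ht2 => ?_⟩
      exfalso
      linarith
  refine ⟨X ^ i * (1 - (1 - (1 - X ^ 2) ^ M) ^ N), ?_, ?_⟩
  · have h1 : (X : ℂ[X]) ∣ 1 - (1 - X ^ 2) ^ M := by
      rw [X_dvd_iff, coeff_zero_eq_eval_zero]
      simp
    have h2 : (X : ℂ[X]) ^ N ∣ (1 - (1 - X ^ 2) ^ M) ^ N := pow_dvd_pow_of_dvd h1 N
    have h3 : (X : ℂ[X]) ^ i * (1 - (1 - (1 - X ^ 2) ^ M) ^ N) - X ^ i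
        = (1 - (1 - X ^ 2) ^ M) ^ N * (-(X ^ i)) := by ring
    rw [h3]
    exact Dvd.dvd.mul_right h2 _
  · intro t ht
    have h1 : eval (t : ℂ) ((X : ℂ[X]) ^ i * (1 - (1 - (1 - X ^ 2) ^ M) ^ N))
        = ((t ^ i * (1 - (1 - (1 - t ^ 2) ^ M) ^ N) : ℝ) : ℂ) := by
      simp
    rw [h1, Complex.norm_real, Real.norm_eq_abs, abs_mul, abs_pow]
    have hs0 : 0 ≤ 1 - t ^ 2 := by
      have : t ^ 2 ≤ 1 := by rw [← sq_abs]; nlinarith [abs_nonneg t]
      linarith
    have hs1 : 1 - t ^ 2 ≤ 1 := by nlinarith [sq_nonneg t]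
    set s := (1 - t ^ 2) ^ M with hs
    have hs2 : 0 ≤ s := by positivity
    have hs3 : s ≤ 1 := pow_le_one₀ hs0 hs1
    have h5 : 0 ≤ 1 - (1 - s) ^ N := by
      have : (1 - s) ^ N ≤ 1 := pow_le_one₀ (by linarith) (by linarith)
      linarith
    have h6 : 1 - (1 - s) ^ N ≤ 1 := by
      have : 0 ≤ (1 - s) ^ N := pow_nonneg (by linarith) _
      linarith
    rw [abs_of_nonneg h5]
    have h7 : |t| ^ i ≤ |t| := by
      calc |t| ^ i ≤ |t| ^ 1 := pow_le_pow_of_le_one (abs_nonneg _) ht hi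
        _ = |t| := pow_one _
    by_cases h8 : η < |t|
    · have h9 : 1 - (1 - s) ^ N ≤ N * s := by
        have := one_add_mul_le_pow (a := -s) (by linarith) N
        have h10 : (1 + -s) ^ N = (1 - s) ^ N := by ring_nf
        rw [h10] at this
        linarith
      calc |t| ^ i * (1 - (1 - s) ^ N) ≤ 1 * (N * s) := by
            apply mul_le_mul (h7.trans ht) h9 h5 zero_le_one
        _ = N * s := one_mul _
        _ ≤ η := hM t ht h8
    · push Not at h8
      calc |t| ^ i * (1 - (1 - s) ^ N) ≤ η * 1 := by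
            apply mul_le_mul (h7.trans h8) h6 h5 hη.le
        _ = η := mul_one _

/-- replacing the nonconstant part of a polynomial by one which is small on `[-1, 1]` -/
lemma exists_small_poly (p₀ : ℂ[X]) (N : ℕ) (hN : 1 ≤ N) :
    ∃ p : ℂ[X], X ^ N ∣ p - p₀ ∧ ∀ t : ℝ, |t| ≤ 1 → ‖p.eval (t : ℂ)‖ ≤ ‖p₀.coeff 0‖ + 1 := by
  -- total size of the coefficients
  set S : ℝ := 1 + ∑ i ∈ Finset.range (p₀.natDegree + 1), ‖p₀.coeff i‖ with hS
  have hSpos : 0 < S := by
    have : 0 ≤ ∑ i ∈ Finset.range (p₀.natDegree + 1), ‖p₀.coeff i‖ :=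
      Finset.sum_nonneg fun i _ => norm_nonneg _
    linarith
  have hq : ∀ i : ℕ, ∃ q : ℂ[X], (1 ≤ i → (X ^ N ∣ q - X ^ i ∧
      ∀ t : ℝ, |t| ≤ 1 → ‖q.eval (t : ℂ)‖ ≤ 1 / S)) ∧ (i = 0 → q = 1) := by
    intro i
    by_cases hi : 1 ≤ i
    · obtain ⟨q, hq1, hq2⟩ := exists_small_jet i N hi (1 / S) (by positivity)
      exact ⟨q, fun _ => ⟨hq1, hq2⟩, fun h => by omega⟩
    · exact ⟨1, fun h => absurd h hi, fun _ => rfl⟩
  choose q hq1 hq2 using hq
  refine ⟨∑ i ∈ Finset.range (p₀.natDegree + 1), C (p₀.coeff i) * q i, ?_, ?_⟩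
  · have hp₀ : p₀ = ∑ i ∈ Finset.range (p₀.natDegree + 1), C (p₀.coeff i) * X ^ i :=
      p₀.as_sum_range_C_mul_X_pow
    have h9 : (∑ i ∈ Finset.range (p₀.natDegree + 1), C (p₀.coeff i) * q i) - p₀
        = (∑ i ∈ Finset.range (p₀.natDegree + 1), C (p₀.coeff i) * q i)
          - ∑ i ∈ Finset.range (p₀.natDegree + 1), C (p₀.coeff i) * X ^ i := by
      rw [← hp₀]
    rw [h9, ← Finset.sum_sub_distrib]
    apply Finset.dvd_sum
    intro i _
    rw [← mul_sub]
    apply Dvd.dvd.mul_left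
    by_cases hi : 1 ≤ i
    · exact (hq1 i hi).1
    · have : i = 0 := by omega
      subst this
      rw [hq2 0 rfl]
      simp
  · intro t ht
    rw [eval_finsetSum, Finset.sum_range_succ']
    have h0 : eval (t : ℂ) (C (p₀.coeff 0) * q 0) = p₀.coeff 0 := by
      rw [hq2 0 rfl]; simp
    rw [h0, add_comm]
    refine (norm_add_le _ _).trans ?_
    gcongr
    calc ‖∑ i ∈ Finset.range p₀.natDegree, eval (t : ℂ) (C (p₀.coeff (i + 1)) * q (i + 1))‖
        ≤ ∑ i ∈ Finset.range p₀.natDegree, ‖p₀.coeff (i + 1)‖ * (1 / S) := by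
          refine (norm_sum_le _ _).trans (Finset.sum_le_sum fun i _ => ?_)
          rw [eval_mul, eval_C, norm_mul]
          have := (hq1 (i + 1) (by omega)).2 t ht
          gcongr
      _ = (∑ i ∈ Finset.range p₀.natDegree, ‖p₀.coeff (i + 1)‖) * (1 / S) := by
          rw [Finset.sum_mul]
      _ ≤ S * (1 / S) := by
          gcongr
          rw [hS, Finset.sum_range_succ']
          have := norm_nonneg (p₀.coeff 0)
          linarith
      _ = 1 := by field_simp

/-- polynomials are Lipschitz on bounded sets of a normed algebra -/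
lemma aeval_lip {A : Type*} [NormedRing A] [NormedAlgebra ℂ A] [NormOneClass A] (p : ℂ[X])
    (R : ℝ) (hR : 0 ≤ R) :
    ∃ L : ℝ, 0 ≤ L ∧ ∀ x y : A, ‖x‖ ≤ R → ‖y‖ ≤ R →
      ‖aeval x p - aeval y p‖ ≤ L * ‖x - y‖ := by
  induction p using Polynomial.induction_on' with
  | add p q hp hq =>
    obtain ⟨L₁, h1, h2⟩ := hp
    obtain ⟨L₂, h3, h4⟩ := hq
    refine ⟨L₁ + L₂, by positivity, fun x y hx hy => ?_⟩
    rw [map_add, map_add]
    have h5 : (aeval x) p + (aeval x) q - ((aeval y) p + (aeval y) q)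
        = ((aeval x) p - (aeval y) p) + ((aeval x) q - (aeval y) q) := by abel
    rw [h5, add_mul]
    exact (norm_add_le _ _).trans (add_le_add (h2 x y hx hy) (h4 x y hx hy))
  | monomial n a =>
    induction n with
    | zero =>
      refine ⟨0, le_rfl, fun x y _ _ => ?_⟩
      simp
    | succ n ih =>
      obtain ⟨L, h1, h2⟩ := ih
      refine ⟨L * R + ‖a‖ * R ^ n, by positivity, fun x y hx hy => ?_⟩
      have h3 : aeval x (monomial (n + 1) a) = aeval x (monomial n a) * x := by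
        rw [aeval_monomial, aeval_monomial, pow_succ, mul_assoc]
      have h4 : aeval y (monomial (n + 1) a) = aeval y (monomial n a) * y := by
        rw [aeval_monomial, aeval_monomial, pow_succ, mul_assoc]
      rw [h3, h4]
      have h5 : aeval x (monomial n a) * x - aeval y (monomial n a) * y
          = (aeval x (monomial n a) - aeval y (monomial n a)) * x
            + aeval y (monomial n a) * (x - y) := by
        rw [sub_mul, mul_sub]; abel
      rw [h5]
      have h6 : ‖aeval y (monomial n a)‖ ≤ ‖a‖ * R ^ n := by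
        rw [aeval_monomial]
        refine (norm_mul_le _ _).trans ?_
        rw [norm_algebraMap']
        gcongr
        exact (norm_pow_le y n).trans (by gcongr)
      calc _ ≤ ‖(aeval x (monomial n a) - aeval y (monomial n a)) * x‖
            + ‖aeval y (monomial n a) * (x - y)‖ := norm_add_le _ _
        _ ≤ ‖aeval x (monomial n a) - aeval y (monomial n a)‖ * ‖x‖
            + ‖aeval y (monomial n a)‖ * ‖x - y‖ :=
            add_le_add (norm_mul_le _ _) (norm_mul_le _ _)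
        _ ≤ (L * ‖x - y‖) * R + (‖a‖ * R ^ n) * ‖x - y‖ := by
            have := h2 x y hx hy
            gcongr
        _ = _ := by ring

end Run7.h752.Uni
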