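import Mathlib
import Pool.Agent.Run7.h752.Kern
import Pool.Agent.Run7.h752.Poly

/-!
# The key lemma: approximating `e j` by polynomials in `T` applied to `f`
-/

set_option autoImplicit false

open Polynomial

namespace Run7.h752.Uni

instance : Nontrivial E := ⟨e 0, 0, fun h => by
  have h1 := norm_e 0
  rw [h, norm_zero] at h1
  exact zero_ne_one h1⟩

instance : NormOneClass (E →L[ℂ] E) := ⟨ContinuousLinearMap.norm_id⟩

/-- norm of a polynomial in a selfadjoint contraction -/
lemma norm_aeval_selfAdjoint (D : E →L[ℂ] E) (hD : IsSelfAdjoint D) (hD1 : ‖D‖ ≤ 1) (p : ℂ[X])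
    (c : ℝ) (hc : 0 ≤ c) (h : ∀ t : ℝ, |t| ≤ 1 → ‖p.eval (t : ℂ)‖ ≤ c) :
    ‖aeval D p‖ ≤ c := by
  have hn : IsStarNormal D := hD.isStarNormal
  rw [← cfc_polynomial p D]
  apply norm_cfc_le hc
  intro z hz
  have h1 : z = (z.re : ℂ) := hD.mem_spectrum_eq_re hz
  rw [h1]
  apply h
  have h2 : ‖z‖ ≤ ‖D‖ * ‖(1 : E →L[ℂ] E)‖ := spectrum.norm_le_norm_mul_of_mem hz
  have h3 : ‖(1 : E →L[ℂ] E)‖ ≤ 1 := ContinuousLinearMap.norm_id_le
  calc |z.re| ≤ ‖z‖ := Complex.abs_re_le_norm z
    _ ≤ ‖D‖ * ‖(1 : E →L[ℂ] E)‖ := h2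
    _ ≤ 1 * 1 := by gcongr
    _ = 1 := one_mul 1

/-- a polynomial in a block diagonal operator -/
lemma aeval_split (A D P : E →L[ℂ] E) (h1 : A * P = A) (h2 : P * A = A) (h3 : D * P = 0)
    (h4 : P * D = 0) (p : ℂ[X]) (x : E) :
    aeval (A + D) p x = aeval A p (P x) + aeval D p (x - P x) := by
  have hpow : ∀ n : ℕ, (A + D) ^ n * P = A ^ n * P ∧ (A + D) ^ n * (1 - P) = D ^ n * (1 - P) := by
    intro n
    induction n with
    | zero => simp
    | succ n ih =>
      have hA : A * (1 - P) = 0 := by rw [mul_sub, mul_one, h1, sub_self]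
      have hD : D * (1 - P) = D := by rw [mul_sub, mul_one, h3, sub_zero]
      have hD' : (1 - P) * D = D := by rw [sub_mul, one_mul, h4, sub_zero]
      constructor
      · rw [pow_succ, pow_succ, mul_assoc, add_mul, h1, h3, add_zero]
        calc (A + D) ^ n * A = (A + D) ^ n * (P * A) := by rw [h2]
          _ = ((A + D) ^ n * P) * A := by rw [mul_assoc]
          _ = (A ^ n * P) * A := by rw [ih.1]
          _ = A ^ n * (P * A) := by rw [mul_assoc]
          _ = A ^ n * (A * P) := by rw [h2, h1]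
          _ = A ^ n * A * P := by rw [mul_assoc]
      · rw [pow_succ, pow_succ, mul_assoc, add_mul, hA, hD, zero_add]
        calc (A + D) ^ n * D = (A + D) ^ n * ((1 - P) * D) := by rw [hD']
          _ = ((A + D) ^ n * (1 - P)) * D := by rw [mul_assoc]
          _ = (D ^ n * (1 - P)) * D := by rw [ih.2]
          _ = D ^ n * ((1 - P) * D) := by rw [mul_assoc]
          _ = D ^ n * (D * (1 - P)) := by rw [hD', hD]
          _ = D ^ n * D * (1 - P) := by rw [mul_assoc]
  induction p using Polynomial.induction_on' with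
  | add p q hp hq =>
    simp only [map_add, add_apply, hp, hq]
    abel
  | monomial n a =>
    simp only [aeval_monomial]
    have e1 : ∀ y : E, (algebraMap ℂ (E →L[ℂ] E) a) y = a • y := by
      intro y
      rw [Algebra.algebraMap_eq_smul_one]; rfl
    simp only [mul_apply_eq_comp, e1]
    rw [← smul_add]
    congr 1
    have h5 : ((A + D) ^ n) x = ((A + D) ^ n * P) x + ((A + D) ^ n * (1 - P)) x := by
      rw [← add_apply, ← mul_add]
      simp
    rw [h5, (hpow n).1, (hpow n).2]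
    simp

/-- vectors supported in `[i, N)` -/
def V (N i : ℕ) (x : E) : Prop := (∀ j < i, x j = 0) ∧ ∀ j, N ≤ j → x j = 0

/-- a head: an operator on the first `N` coordinates, strictly lower triangular with nonzero
subdiagonal -/
structure Head (N : ℕ) (A : E →L[ℂ] E) (s : ℕ → ℂ) : Prop where
  low : ∀ (x : E) (i : ℕ), (∀ j < i, x j = 0) → ∀ j ≤ i, A x j = 0
  sub : ∀ (x : E) (i : ℕ), (∀ j < i, x j = 0) → i + 1 < N → A x (i + 1) = s i * x i
  ne : ∀ i, s i ≠ 0
  top : ∀ (x : E) (j : ℕ), N ≤ j → A x j = 0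

lemma head_cyclic {N : ℕ} {A : E →L[ℂ] E} {s : ℕ → ℂ} (hA : Head N A s) (d : ℕ) :
    ∀ i, i + d = N → ∀ v w : E, V N i v → V N i w → (i < N → w i ≠ 0) →
      ∃ p : ℂ[X], aeval A p w = v ∧ (i < N → p.coeff 0 = v i / w i) := by
  induction d with
  | zero =>
    intro i hi v w hv hw _
    refine ⟨0, ?_, fun h => by omega⟩
    ext j
    simp only [map_zero, zero_apply]
    by_cases hj : j < i
    · rw [hv.1 j hj]; rfl
    · rw [hv.2 j (by omega)]; rfl
  | succ d ih =>
    intro i hi v w hv hw hne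
    have hiN : i < N := by omega
    have hwi := hne hiN
    set c := v i / w i with hc
    have hv' : V N (i + 1) (v - c • w) := by
      constructor
      · intro j hj
        have hj' : j < i ∨ j = i := by omega
        change v j - c * w j = 0
        rcases hj' with h | rfl
        · rw [hv.1 j h, hw.1 j h]; ring
        · rw [hc]; field_simp; ring
      · intro j hj
        change v j - c * w j = 0
        rw [hv.2 j hj, hw.2 j hj]; ring
    have hw' : V N (i + 1) (A w) :=
      ⟨fun j hj => hA.low w i hw.1 j (by omega), fun j hj => hA.top w j hj⟩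
    obtain ⟨p', hp1, _⟩ := ih (i + 1) (by omega) (v - c • w) (A w) hv' hw' (by
      intro h
      rw [hA.sub w i hw.1 h]
      exact mul_ne_zero (hA.ne i) hwi)
    refine ⟨C c + p' * X, ?_, fun _ => ?_⟩
    · rw [map_add, map_mul, aeval_X, aeval_C, add_apply,
        mul_apply_eq_comp, hp1, Algebra.algebraMap_eq_smul_one]
      simp
    · simp [hc]

lemma head_pow {N : ℕ} {A : E →L[ℂ] E} {s : ℕ → ℂ} (hA : Head N A s) (hN : 1 ≤ N) :
    A ^ N = 0 := by
  have h1 : ∀ (n : ℕ) (x : E), ∀ j < n, (A ^ n) x j = 0 := by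
    intro n
    induction n with
    | zero => intro x j hj; omega
    | succ n ih =>
      intro x j hj
      rw [pow_succ', mul_apply_eq_comp]
      exact hA.low _ n (ih x) j (by omega)
  ext x j
  by_cases hj : j < N
  · rw [h1 N x j hj]; rfl
  · obtain ⟨m, rfl⟩ : ∃ m, N = m + 1 := ⟨N - 1, by omega⟩
    rw [pow_succ', mul_apply_eq_comp, hA.top _ j (by omega)]; rfl

/-- for each head vector there is a good polynomial -/
lemma head_good_poly {N : ℕ} {A : E →L[ℂ] E} {s : ℕ → ℂ} (hA : Head N A s) (j : ℕ) (hj : j < N)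
    (g : E) (hg : V N j g) (hgj : g j ≠ 0) :
    ∃ p : ℂ[X], aeval A p g = e j ∧ ∀ t : ℝ, |t| ≤ 1 → ‖p.eval (t : ℂ)‖ ≤ 1 / ‖g j‖ + 1 := by
  have hN : 1 ≤ N := by omega
  have he : V N j (e j) := by
    constructor
    · intro i hi
      rw [e_apply, if_neg (by omega)]
    · intro i hi
      rw [e_apply, if_neg (by omega)]
  obtain ⟨p₀, h1, h2⟩ := head_cyclic hA (N - j) j (by omega) (e j) g he hg (fun _ => hgj)
  obtain ⟨p, hp1, hp2⟩ := exists_small_poly p₀ N hN
  refine ⟨p, ?_, ?_⟩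
  · obtain ⟨r, hr⟩ := hp1
    have h3 : p = p₀ + X ^ N * r := by rw [← hr]; ring
    rw [h3, map_add, map_mul, map_pow, aeval_X, head_pow hA hN, zero_mul, add_zero, h1]
  · intro t ht
    have h4 := hp2 t ht
    rw [h2 hj, e_apply, if_pos rfl, norm_div, norm_one] at h4
    exact h4

/-- the head projection -/
noncomputable def P (N : ℕ) : E →L[ℂ] E := op (pK N)

lemma P_apply (N : ℕ) (x : E) (i : ℕ) : P N x i = if i < N then x i else 0 := by
  unfold P
  rw [op_apply (bddK_pK N)]
  rw [Finset.sum_eq_single i]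
  · unfold pK
    by_cases h : i < N
    · simp [h]
    · simp [h]
  · intro j _ hj
    unfold pK
    rw [if_neg (by rintro ⟨rfl, _⟩; exact hj rfl), zero_mul]
  · intro h
    exfalso
    apply h
    rw [Finset.mem_range]; omega

lemma norm_P_le (N : ℕ) : ‖P N‖ ≤ 1 := norm_op_le (bddK_pK N)

lemma P_idem (N : ℕ) : P N * P N = P N := by
  ext x i
  rw [mul_apply_eq_comp, P_apply, P_apply]
  split_ifs <;> rfl

/-- compactness of the set of normalised head vectors -/
lemma compact_heads (N j : ℕ) (K : ℝ) :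
    IsCompact {g : E | V N j g ∧ ‖g‖ ≤ K ∧ 1 / K ≤ ‖g j‖} := by
  have hι : Continuous fun c : Fin N → ℂ => ∑ i : Fin N, c i • e i := by fun_prop
  have hcomp : IsCompact ((fun c : Fin N → ℂ => ∑ i : Fin N, c i • e i) ''
      (Metric.closedBall 0 K)) := (isCompact_closedBall _ _).image hι
  have hcoord : ∀ i : ℕ, Continuous fun g : E => g i := by
    intro i
    have h : (fun g : E => g i) = fun g => inner ℂ (e i) g := by
      funext g; rw [inner_e_left]
    rw [h]
    fun_prop
  refine hcomp.of_isClosed_subset ?_ ?_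
  · have h1 : {g : E | V N j g ∧ ‖g‖ ≤ K ∧ 1 / K ≤ ‖g j‖} =
        ((⋂ i ∈ Set.Iio j, {g : E | g i = 0}) ∩ (⋂ i ∈ Set.Ici N, {g : E | g i = 0})) ∩
        ({g : E | ‖g‖ ≤ K} ∩ {g : E | 1 / K ≤ ‖g j‖}) := by
      ext g
      simp [V]
    rw [h1]
    refine IsClosed.inter (IsClosed.inter ?_ ?_) (IsClosed.inter ?_ ?_)
    · exact isClosed_biInter fun i _ => isClosed_eq (hcoord i) continuous_const
    · exact isClosed_biInter fun i _ => isClosed_eq (hcoord i) continuous_const
    · exact isClosed_le continuous_norm continuous_const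
    · exact isClosed_le continuous_const (hcoord j).norm
  · rintro g ⟨hg, hgK, _⟩
    refine ⟨fun i => g i, ?_, ?_⟩
    · rw [mem_closedBall_zero_iff, pi_norm_le_iff_of_nonneg ((norm_nonneg g).trans hgK)]
      intro i
      exact (coord_le g i).trans hgK
    · ext l
      have h1 : (∑ i : Fin N, g i • e i : E) l = ∑ i : Fin N, g i * e i l := by
        rw [lp.coeFn_sum, Finset.sum_apply]
        rfl
      simp only
      rw [h1]
      by_cases hl : l < N
      · rw [Finset.sum_eq_single (⟨l, hl⟩ : Fin N)]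
        · rw [e_apply, if_pos rfl, mul_one]
        · intro b _ hb
          rw [e_apply, if_neg, mul_zero]
          intro h
          apply hb
          ext
          exact h.symm
        · intro h; exact absurd (Finset.mem_univ _) h
      · rw [hg.2 l (by omega)]
        apply Finset.sum_eq_zero
        intro b _
        rw [e_apply, if_neg, mul_zero]
        intro h
        have := b.2
        omega

/-- **Key lemma.** -/
lemma key (N : ℕ) (A : E →L[ℂ] E) (s : ℕ → ℂ) (hA : Head N A s) (hAP : A * P N = A)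
    (hPA : P N * A = A) (j : ℕ) (hj : j < N) (K : ℝ) (hK : 1 ≤ K) :
    ∃ γ : ℝ, 0 < γ ∧ ∀ T D : E →L[ℂ] E, ‖T‖ ≤ 4 → IsSelfAdjoint D → ‖D‖ ≤ 1 →
      D * P N = 0 → P N * D = 0 → ‖T - (A + D)‖ ≤ γ → ∀ f : E, ‖f‖ ≤ K →
      (∀ i < j, f i = 0) → 1 / K ≤ ‖f j‖ →
      ∃ p : ℂ[X], ‖aeval T p f - e j‖ ≤ (1 / ‖f j‖ + 2) * ‖f - P N f‖ + 1 / K := by
  have hKpos : 0 < K := by linarith
  set S : Set E := {g : E | V N j g ∧ ‖g‖ ≤ K ∧ 1 / K ≤ ‖g j‖} with hS
  have hScomp : IsCompact S := compact_heads N j K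
  have hcoord : ∀ i : ℕ, Continuous fun g : E => g i := by
    intro i
    have h : (fun g : E => g i) = fun g => inner ℂ (e i) g := by
      funext g; rw [inner_e_left]
    rw [h]
    fun_prop
  have hgood : ∀ g : E, ∃ p : ℂ[X], g ∈ S → (aeval A p g = e j ∧
      ∀ t : ℝ, |t| ≤ 1 → ‖p.eval (t : ℂ)‖ ≤ 1 / ‖g j‖ + 1) := by
    intro g
    by_cases hg : g ∈ S
    · have hgj : g j ≠ 0 := by
        intro h
        have h1 := hg.2.2
        rw [h, norm_zero] at h1
        have : 0 < 1 / K := by positivity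
        linarith
      obtain ⟨p, hp⟩ := head_good_poly hA j hj g hg.1 hgj
      exact ⟨p, fun _ => hp⟩
    · exact ⟨0, fun h => absurd h hg⟩
  choose pg hpg using hgood
  have hlip := fun g : E => aeval_lip (A := E →L[ℂ] E) (pg g) 5 (by norm_num)
  choose L hL0 hL using hlip
  -- neighbourhoods
  have hnhds : ∀ g ∈ S, {h : E | ‖aeval A (pg g) (h - g)‖ < 1 / (2 * K) ∧
      1 / ‖g j‖ < 1 / ‖h j‖ + 1} ∈ nhds g := by
    intro g hg
    have hgj : 0 < ‖g j‖ := lt_of_lt_of_le (by positivity) hg.2.2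
    have h1 : ∀ᶠ h in nhds g, ‖aeval A (pg g) (h - g)‖ < 1 / (2 * K) := by
      have hc : Continuous fun h : E => ‖aeval A (pg g) (h - g)‖ := by fun_prop
      have h2 := hc.tendsto g
      simp only [sub_self, map_zero, norm_zero] at h2
      exact h2.eventually (gt_mem_nhds (by positivity))
    have h2 : ∀ᶠ h in nhds g, 1 / ‖g j‖ < 1 / ‖h j‖ + 1 := by
      have hc : Filter.Tendsto (fun h : E => 1 / ‖h j‖ + 1) (nhds g) (nhds (1 / ‖g j‖ + 1)) := by
        refine Filter.Tendsto.add_const _ ?_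
        refine Filter.Tendsto.div tendsto_const_nhds ((hcoord j).norm.tendsto g) hgj.ne'
      exact hc.eventually (lt_mem_nhds (by linarith))
    exact h1.and h2
  obtain ⟨t, ht1, ht2⟩ := hScomp.elim_nhds_subcover _ hnhds
  set Ls := ∑ g ∈ t, L g with hLs
  have hLs0 : 0 ≤ Ls := Finset.sum_nonneg fun g _ => hL0 g
  refine ⟨min 1 (1 / (2 * K) / (K * (1 + Ls))), by positivity, ?_⟩
  intro T D hT hDs hD1 hDP hPD hTAD f hfK hf0 hfj
  have hγ1 : ‖T - (A + D)‖ ≤ 1 := hTAD.trans (min_le_left _ _)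
  have hγ2 : ‖T - (A + D)‖ ≤ 1 / (2 * K) / (K * (1 + Ls)) := hTAD.trans (min_le_right _ _)
  have hAD : ‖A + D‖ ≤ 5 := by
    have h1 : A + D = T - (T - (A + D)) := by abel
    rw [h1]
    exact (norm_sub_le _ _).trans (by linarith)
  -- the head of `f`
  have hPf : P N f ∈ S := by
    refine ⟨⟨?_, ?_⟩, ?_, ?_⟩
    · intro i hi
      rw [P_apply]
      split_ifs
      · exact hf0 i hi
      · rfl
    · intro i hi
      rw [P_apply, if_neg (by omega)]
    · calc ‖P N f‖ ≤ ‖P N‖ * ‖f‖ := (P N).le_opNorm f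
        _ ≤ 1 * K := by have := norm_P_le N; gcongr
        _ = K := one_mul K
    · rw [P_apply, if_pos hj]; exact hfj
  have hPfj : P N f j = f j := by rw [P_apply, if_pos hj]
  have hmem := ht2 hPf
  rw [Set.mem_iUnion₂] at hmem
  obtain ⟨g, hgt, hg1, hg2⟩ := hmem
  have hgS := ht1 g hgt
  obtain ⟨hp1, hp2⟩ := hpg g hgS
  refine ⟨pg g, ?_⟩
  have hLg : L g ≤ Ls := Finset.single_le_sum (fun g _ => hL0 g) hgt
  -- first term
  have hb1 : ‖aeval T (pg g) f - aeval (A + D) (pg g) f‖ ≤ 1 / (2 * K) := by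
    rw [← sub_apply]
    calc ‖(aeval T (pg g) - aeval (A + D) (pg g)) f‖
        ≤ ‖aeval T (pg g) - aeval (A + D) (pg g)‖ * ‖f‖ := ContinuousLinearMap.le_opNorm _ _
      _ ≤ (L g * ‖T - (A + D)‖) * ‖f‖ := by
          gcongr
          exact hL g T (A + D) (by linarith) hAD
      _ ≤ ((1 + Ls) * (1 / (2 * K) / (K * (1 + Ls)))) * K := by
          have : L g ≤ 1 + Ls := by linarith
          have := hL0 g
          gcongr
      _ = 1 / (2 * K) := by
          have : 1 + Ls ≠ 0 := by positivity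
          field_simp
  have hb2 : aeval (A + D) (pg g) f = aeval A (pg g) (P N f) + aeval D (pg g) (f - P N f) :=
    aeval_split A D (P N) hAP hPA hDP hPD _ _
  have hb3 : ‖aeval A (pg g) (P N f) - e j‖ ≤ 1 / (2 * K) := by
    have h1 : aeval A (pg g) (P N f) - e j = aeval A (pg g) (P N f - g) := by
      rw [map_sub, hp1]
    rw [h1]
    exact hg1.le
  have hb4 : ‖aeval D (pg g)‖ ≤ 1 / ‖f j‖ + 2 := by
    have h1 : ‖aeval D (pg g)‖ ≤ 1 / ‖g j‖ + 1 :=
      norm_aeval_selfAdjoint D hDs hD1 _ _ (by positivity) hp2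
    rw [hPfj] at hg2
    linarith
  have hb5 : ‖aeval D (pg g) (f - P N f)‖ ≤ (1 / ‖f j‖ + 2) * ‖f - P N f‖ :=
    (ContinuousLinearMap.le_opNorm _ _).trans (by gcongr)
  have hfin : aeval T (pg g) f - e j = (aeval T (pg g) f - aeval (A + D) (pg g) f)
      + (aeval A (pg g) (P N f) - e j) + aeval D (pg g) (f - P N f) := by
    rw [hb2]; abel
  rw [hfin]
  calc _ ≤ ‖(aeval T (pg g) f - aeval (A + D) (pg g) f)‖
      + ‖(aeval A (pg g) (P N f) - e j)‖ + ‖aeval D (pg g) (f - P N f)‖ :=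
        norm_add₃_le
    _ ≤ 1 / (2 * K) + 1 / (2 * K) + (1 / ‖f j‖ + 2) * ‖f - P N f‖ := by gcongr
    _ = _ := by field_simp; ring

end Run7.h752.Uni
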