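import Mathlib
import Pool.Agent.Run7.h752.Local

/-!
# The operators `T J`
-/

set_option autoImplicit false

open Polynomial Finset

namespace Run7.h752.Uni

/-- the next element of `J` at or after the block of `i + 1` -/
noncomputable def nxt (J : Set ℕ) (i : ℕ) : ℕ := sInf {k | k ∈ J ∧ lg (i + 1) ≤ k}

/-- the weights of the weighted shift -/
noncomputable def dl (J : Set ℕ) (i : ℕ) : ℝ := 1 / ((nxt J i : ℝ) + 1)

lemma dl_pos (J : Set ℕ) (i : ℕ) : 0 < dl J i := by unfold dl; positivity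

lemma dl_le_one (J : Set ℕ) (i : ℕ) : dl J i ≤ 1 := by
  unfold dl
  rw [div_le_one (by positivity)]
  have : (0 : ℝ) ≤ nxt J i := by positivity
  linarith

/-- selfadjoint part -/
noncomputable def Dop (J : Set ℕ) : E →L[ℂ] E := op (dK J)
/-- skew part -/
noncomputable def Gop (J : Set ℕ) : E →L[ℂ] E := op (gK J)
/-- weighted shift -/
noncomputable def Wop (δ : ℕ → ℝ) : E →L[ℂ] E := op (wK δ)

/-- the operator -/
noncomputable def T (J : Set ℕ) : E →L[ℂ] E := Dop J + Gop J + Wop (dl J)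

/-- the kernel of `T J` -/
noncomputable def tK (J : Set ℕ) (i j : ℕ) : ℂ := dK J i j + gK J i j + wK (dl J) i j

/-- end of the block `κ` -/
def NN (κ : ℕ) : ℕ := 2 ^ (κ + 1) - 1

lemma lt_NN_iff {i κ : ℕ} : i < NN κ ↔ lg i ≤ κ := by
  unfold NN
  rw [← lg_lt_iff]
  omega

lemma lt_NN_self (κ : ℕ) : κ < NN κ := by
  unfold NN
  have := Nat.lt_two_pow_self (n := κ + 1)
  omega

lemma bddW {δ : ℕ → ℝ} {c : ℝ} (h0 : ∀ i, 0 ≤ δ i) (h1 : ∀ i, δ i ≤ c) : BddK (wK δ) c :=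
  bddK_wK δ c ((h0 0).trans (h1 0)) fun i => by rw [abs_of_nonneg (h0 i)]; exact h1 i

lemma bddG (J : Set ℕ) : BddK (gK J) (Real.pi / (2 * hh 0)) :=
  bddK_gK J 0 fun k _ => Nat.zero_le k

lemma Dop_e (J : Set ℕ) (i j : ℕ) : Dop J (e j) i = dK J i j :=
  op_e (bddK_dK J) (supp_of_lg (dK_supp J)) i j

lemma Gop_e (J : Set ℕ) (i j : ℕ) : Gop J (e j) i = gK J i j :=
  op_e (bddG J) (supp_of_lg (gK_supp J)) i j

lemma Wop_e {δ : ℕ → ℝ} {c : ℝ} (h0 : ∀ i, 0 ≤ δ i) (h1 : ∀ i, δ i ≤ c) (i j : ℕ) :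
    Wop δ (e j) i = wK δ i j :=
  op_e (bddW h0 h1) (wK_supp δ) i j

lemma norm_Dop_le (J : Set ℕ) : ‖Dop J‖ ≤ 1 := norm_op_le (bddK_dK J)

lemma norm_Gop_le (J : Set ℕ) (κ : ℕ) (hJ : ∀ k ∈ J, κ ≤ k) :
    ‖Gop J‖ ≤ Real.pi / (2 * hh κ) := norm_op_le (bddK_gK J κ hJ)

lemma norm_Wop_le {δ : ℕ → ℝ} {c : ℝ} (h0 : ∀ i, 0 ≤ δ i) (h1 : ∀ i, δ i ≤ c) :
    ‖Wop δ‖ ≤ c := norm_op_le (bddW h0 h1)

lemma norm_T_le (J : Set ℕ) : ‖T J‖ ≤ 4 := by
  have h1 := norm_Dop_le J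
  have h2 := norm_Gop_le J 0 fun k _ => Nat.zero_le k
  have h3 := norm_Wop_le (c := 1) (fun i => (dl_pos J i).le) (dl_le_one J)
  have h0 : hh 0 = 1 := by simp [hh]
  rw [h0] at h2
  have h4 := Real.pi_lt_four
  unfold T
  calc _ ≤ ‖Dop J + Gop J‖ + ‖Wop (dl J)‖ := norm_add_le _ _
    _ ≤ ‖Dop J‖ + ‖Gop J‖ + ‖Wop (dl J)‖ := by gcongr; exact norm_add_le _ _
    _ ≤ 4 := by linarith

lemma T_apply (J : Set ℕ) (x : E) (i : ℕ) :
    T J x i = ∑ j ∈ range (2 * i + 2), tK J i j * x j := by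
  unfold T Dop Gop Wop
  change (op (dK J) x i + op (gK J) x i) + op (wK (dl J)) x i = _
  rw [op_apply (bddK_dK J), op_apply (bddG J),
    op_apply (bddW (c := 1) (fun i => (dl_pos J i).le) (dl_le_one J)),
    ← Finset.sum_add_distrib, ← Finset.sum_add_distrib]
  refine Finset.sum_congr rfl fun j _ => ?_
  unfold tK
  ring

lemma T_e (J : Set ℕ) (i j : ℕ) : T J (e j) i = tK J i j := by
  unfold T tK
  rw [← Dop_e, ← Gop_e, ← Wop_e (c := 1) (fun i => (dl_pos J i).le) (dl_le_one J)]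
  rfl

/-- the kernel is strictly lower triangular -/
lemma tK_eq_zero (J : Set ℕ) {i j : ℕ} (h : i ≤ j) : tK J i j = 0 := by
  unfold tK wK
  rw [if_neg (by omega), add_zero]
  unfold dK gK
  by_cases hc : lg i = lg j ∧ lg i ∈ J ∧ i ≠ j
  · rw [if_pos hc, if_pos hc]
    have hij : i < j := lt_of_le_of_ne h hc.2.2
    have hij' : (i : ℝ) < j := by exact_mod_cast hij
    rw [abs_of_neg (by linarith)]
    rw [← Complex.ofReal_add]
    have hp := hh_pos (lg i)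
    have h1 : (i : ℝ) - j ≠ 0 := by linarith
    have h2 : -((i : ℝ) - j) ≠ 0 := neg_ne_zero.2 h1
    have : 1 / (2 * hh (lg i) * -((i : ℝ) - j)) + 1 / (2 * hh (lg i) * ((i : ℝ) - j)) = 0 := by
      field_simp
      ring
    rw [this]
    simp
  · rw [if_neg hc, if_neg hc, add_zero]

/-- the subdiagonal entries -/
lemma tK_sub_ne (J : Set ℕ) (i : ℕ) : tK J (i + 1) i ≠ 0 := by
  unfold tK wK
  rw [if_pos rfl]
  have hδ := dl_pos J i
  unfold dK gK
  by_cases hc : lg (i + 1) = lg i ∧ lg (i + 1) ∈ J ∧ i + 1 ≠ i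
  · rw [if_pos hc, if_pos hc]
    have h1 : (((i + 1 : ℕ) : ℝ) - i) = 1 := by push_cast; ring
    rw [h1, abs_one, ← Complex.ofReal_add, ← Complex.ofReal_add]
    have hp := hh_pos (lg (i + 1))
    have : 0 < 1 / (2 * hh (lg (i + 1)) * 1) + 1 / (2 * hh (lg (i + 1)) * 1) + dl J i := by
      positivity
    exact_mod_cast this.ne'
  · rw [if_neg hc, if_neg hc, add_zero, zero_add]
    exact_mod_cast hδ.ne'

lemma T_low (J : Set ℕ) (x : E) (i : ℕ) (hx : ∀ j < i, x j = 0) : ∀ j ≤ i, T J x j = 0 := by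
  intro j hj
  rw [T_apply]
  apply Finset.sum_eq_zero
  intro l _
  by_cases hl : l < j
  · rw [hx l (by omega), mul_zero]
  · rw [tK_eq_zero J (by omega), zero_mul]

lemma T_sub (J : Set ℕ) (x : E) (i : ℕ) (hx : ∀ j < i, x j = 0) :
    T J x (i + 1) = tK J (i + 1) i * x i := by
  rw [T_apply]
  rw [Finset.sum_eq_single i]
  · intro l _ hl
    by_cases hl' : l < i
    · rw [hx l hl', mul_zero]
    · rw [tK_eq_zero J (by omega), zero_mul]
  · intro h
    exfalso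
    apply h
    rw [Finset.mem_range]; omega

lemma P_e (N j : ℕ) : P N (e j) = if j < N then e j else 0 := by
  ext i
  rw [P_apply]
  by_cases hj : j < N
  · rw [if_pos hj]
    by_cases hi : i < N
    · rw [if_pos hi]
    · rw [if_neg hi, e_apply, if_neg (by omega)]
  · rw [if_neg hj]
    by_cases hi : i < N
    · rw [if_pos hi, e_apply, if_neg (by omega)]; rfl
    · rw [if_neg hi]; rfl

lemma dK_congr {J J' : Set ℕ} {i j : ℕ} (h : lg i ∈ J ↔ lg i ∈ J') : dK J i j = dK J' i j := by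
  unfold dK
  by_cases hc : lg i = lg j ∧ lg i ∈ J ∧ i ≠ j
  · rw [if_pos hc, if_pos ⟨hc.1, h.1 hc.2.1, hc.2.2⟩]
  · rw [if_neg hc, if_neg (fun h' => hc ⟨h'.1, h.2 h'.2.1, h'.2.2⟩)]

lemma gK_congr {J J' : Set ℕ} {i j : ℕ} (h : lg i ∈ J ↔ lg i ∈ J') : gK J i j = gK J' i j := by
  unfold gK
  by_cases hc : lg i = lg j ∧ lg i ∈ J ∧ i ≠ j
  · rw [if_pos hc, if_pos ⟨hc.1, h.1 hc.2.1, hc.2.2⟩]
  · rw [if_neg hc, if_neg (fun h' => hc ⟨h'.1, h.2 h'.2.1, h'.2.2⟩)]

/-- the head of `T J` -/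
noncomputable def Hd (J : Set ℕ) (N : ℕ) : E →L[ℂ] E := P N * T J * P N

lemma compress_e (B : E →L[ℂ] E) (N i j : ℕ) :
    (P N * B * P N) (e j) i = if i < N ∧ j < N then B (e j) i else 0 := by
  rw [mul_apply_eq_comp, mul_apply_eq_comp, P_apply, P_e]
  by_cases hj : j < N
  · rw [if_pos hj]
    by_cases hi : i < N
    · rw [if_pos hi, if_pos ⟨hi, hj⟩]
    · rw [if_neg hi, if_neg (fun h => hi h.1)]
  · rw [if_neg hj, map_zero]
    have h2 : ¬ (i < N ∧ j < N) := fun h => hj h.2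
    rw [if_neg h2]
    split_ifs <;> rfl

lemma Hd_head (J : Set ℕ) (N : ℕ) : Head N (Hd J N) (fun i => tK J (i + 1) i) := by
  have hP : ∀ (x : E) (i : ℕ), (∀ j < i, x j = 0) → ∀ j < i, P N x j = 0 := by
    intro x i hx j hj
    rw [P_apply, hx j hj]
    split_ifs <;> rfl
  refine ⟨?_, ?_, tK_sub_ne J, ?_⟩
  · intro x i hx j hj
    unfold Hd
    rw [mul_apply_eq_comp, mul_apply_eq_comp, P_apply]
    split_ifs
    · exact T_low J _ i (hP x i hx) j hj
    · rfl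
  · intro x i hx hi
    unfold Hd
    rw [mul_apply_eq_comp, mul_apply_eq_comp, P_apply, if_pos hi, T_sub J _ i (hP x i hx), P_apply,
      if_pos (by omega)]
  · intro x j hj
    unfold Hd
    rw [mul_apply_eq_comp, mul_apply_eq_comp, P_apply, if_neg (by omega)]

lemma Hd_P (J : Set ℕ) (N : ℕ) : Hd J N * P N = Hd J N := by
  unfold Hd; rw [mul_assoc, P_idem]

lemma P_Hd (J : Set ℕ) (N : ℕ) : P N * Hd J N = Hd J N := by
  unfold Hd; rw [← mul_assoc, ← mul_assoc, P_idem]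

/-- the head only depends on the part of `J` up to `κ` -/
lemma Hd_congr {J : Set ℕ} {κ : ℕ} (hκ : κ ∈ J) : Hd J (NN κ) = Hd (J ∩ Set.Iic κ) (NN κ) := by
  apply ext_e
  intro j
  ext i
  unfold Hd
  rw [compress_e, compress_e]
  by_cases h : i < NN κ ∧ j < NN κ
  · rw [if_pos h, if_pos h, T_e, T_e]
    have hi := lt_NN_iff.1 h.1
    have hmem : lg i ∈ J ↔ lg i ∈ J ∩ Set.Iic κ := by
      constructor
      · intro h'; exact ⟨h', hi⟩
      · intro h'; exact h'.1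
    unfold tK
    rw [dK_congr hmem, gK_congr hmem]
    congr 1
    unfold wK
    by_cases hij : i = j + 1
    · rw [if_pos hij, if_pos hij]
      congr 1
      unfold dl
      congr 3
      -- nxt
      unfold nxt
      have hl : lg (j + 1) ≤ κ := by rw [← hij]; exact hi
      have hne1 : {k | k ∈ J ∧ lg (j + 1) ≤ k}.Nonempty := ⟨κ, hκ, hl⟩
      have hne2 : {k | k ∈ J ∩ Set.Iic κ ∧ lg (j + 1) ≤ k}.Nonempty :=
        ⟨κ, ⟨hκ, le_refl κ⟩, hl⟩
      apply le_antisymm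
      · apply Nat.sInf_le
        have := Nat.sInf_mem hne2
        exact ⟨this.1.1, this.2⟩
      · apply Nat.sInf_le
        have := Nat.sInf_mem hne1
        refine ⟨⟨this.1, ?_⟩, this.2⟩
        exact Nat.sInf_le (show κ ∈ {k | k ∈ J ∧ lg (j + 1) ≤ k} from ⟨hκ, hl⟩)
    · rw [if_neg hij, if_neg hij]
  · rw [if_neg h, if_neg h]

/-- the tail weights -/
noncomputable def dlt (J : Set ℕ) (N i : ℕ) : ℝ := if i + 1 < N then 0 else dl J i

/-- decomposition of `T J` -/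
lemma T_decomp (J : Set ℕ) (κ : ℕ) :
    T J - (Hd J (NN κ) + Dop (J ∩ Set.Ioi κ)) = Gop (J ∩ Set.Ioi κ) + Wop (dlt J (NN κ)) := by
  have hd0 : ∀ i, 0 ≤ dlt J (NN κ) i := by
    intro i; unfold dlt; split_ifs
    · exact le_rfl
    · exact (dl_pos J i).le
  have hd1 : ∀ i, dlt J (NN κ) i ≤ 1 := by
    intro i; unfold dlt; split_ifs
    · exact zero_le_one
    · exact dl_le_one J i
  apply ext_e
  intro j
  ext i
  have h1 : ((T J - (Hd J (NN κ) + Dop (J ∩ Set.Ioi κ))) (e j)) i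
      = T J (e j) i - (Hd J (NN κ) (e j) i + Dop (J ∩ Set.Ioi κ) (e j) i) := rfl
  have h2 : ((Gop (J ∩ Set.Ioi κ) + Wop (dlt J (NN κ))) (e j)) i
      = Gop (J ∩ Set.Ioi κ) (e j) i + Wop (dlt J (NN κ)) (e j) i := rfl
  rw [h1, h2, T_e, Dop_e, Gop_e, Wop_e hd0 hd1]
  unfold Hd
  rw [compress_e, T_e]
  by_cases hi : i < NN κ
  · have hi' := lt_NN_iff.1 hi
    have hD : dK (J ∩ Set.Ioi κ) i j = 0 := by
      unfold dK
      rw [if_neg]
      rintro ⟨_, h, _⟩
      have := h.2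
      rw [Set.mem_Ioi] at this
      omega
    have hG : gK (J ∩ Set.Ioi κ) i j = 0 := by
      unfold gK
      rw [if_neg]
      rintro ⟨_, h, _⟩
      have := h.2
      rw [Set.mem_Ioi] at this
      omega
    rw [hD, hG]
    have hW : wK (dlt J (NN κ)) i j = 0 := by
      unfold wK
      split_ifs with h
      · unfold dlt
        rw [if_pos (by omega)]
        simp
      · rfl
    rw [hW]
    by_cases hj : j < NN κ
    · rw [if_pos ⟨hi, hj⟩]; ring
    · rw [if_neg (by tauto), tK_eq_zero J (by omega)]; ring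
  · rw [if_neg (by tauto)]
    have hi' : κ < lg i := by
      rw [lt_NN_iff] at hi
      omega
    have hmem : lg i ∈ J ∩ Set.Ioi κ ↔ lg i ∈ J := ⟨fun h => h.1, fun h => ⟨h, hi'⟩⟩
    have hD : dK (J ∩ Set.Ioi κ) i j = dK J i j := dK_congr hmem
    have hG : gK (J ∩ Set.Ioi κ) i j = gK J i j := gK_congr hmem
    have hW : wK (dlt J (NN κ)) i j = wK (dl J) i j := by
      unfold wK
      split_ifs with h
      · unfold dlt
        rw [if_neg (by omega)]
      · rfl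
    rw [hD, hG, hW]
    unfold tK
    ring

lemma Dop_selfAdjoint (J : Set ℕ) : IsSelfAdjoint (Dop J) := by
  apply op_selfAdjoint (bddK_dK J) (supp_of_lg (dK_supp J))
  intro i j
  unfold dK
  by_cases h : lg i = lg j ∧ lg i ∈ J ∧ i ≠ j
  · rw [if_pos h, if_pos ⟨h.1.symm, h.1 ▸ h.2.1, h.2.2.symm⟩, Complex.conj_ofReal, h.1, abs_sub_comm]
  · rw [if_neg h, if_neg, map_zero]
    rintro ⟨h1, h2, h3⟩
    exact h ⟨h1.symm, h1 ▸ h2, h3.symm⟩

lemma Dop_P (J : Set ℕ) (κ : ℕ) : Dop (J ∩ Set.Ioi κ) * P (NN κ) = 0 := by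
  apply ext_e
  intro j
  ext i
  rw [mul_apply_eq_comp, P_e]
  by_cases hj : j < NN κ
  · rw [if_pos hj, Dop_e]
    unfold dK
    rw [if_neg]
    · rfl
    · rintro ⟨h1, h, _⟩
      have h2 := h.2
      rw [Set.mem_Ioi] at h2
      have := lt_NN_iff.1 hj
      omega
  · rw [if_neg hj, map_zero]; rfl

lemma P_Dop (J : Set ℕ) (κ : ℕ) : P (NN κ) * Dop (J ∩ Set.Ioi κ) = 0 := by
  apply ext_e
  intro j
  ext i
  rw [mul_apply_eq_comp, P_apply]
  by_cases hi : i < NN κ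
  · rw [if_pos hi, Dop_e]
    unfold dK
    rw [if_neg]
    · rfl
    · rintro ⟨h1, h, _⟩
      have h2 := h.2
      rw [Set.mem_Ioi] at h2
      have := lt_NN_iff.1 hi
      omega
  · rw [if_neg hi]; rfl

/-- error bound -/
lemma T_err (J : Set ℕ) (κ κ' : ℕ) (h : ∀ k ∈ J, κ < k → κ' ≤ k) (hinf : J.Infinite) :
    ‖T J - (Hd J (NN κ) + Dop (J ∩ Set.Ioi κ))‖ ≤ Real.pi / (2 * hh κ') + 1 / ((κ' : ℝ) + 1) := by
  rw [T_decomp]
  refine (norm_add_le _ _).trans (add_le_add ?_ ?_)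
  · exact norm_Gop_le _ κ' fun k hk => h k hk.1 hk.2
  · apply norm_Wop_le
    · intro i; unfold dlt; split_ifs
      · exact le_rfl
      · exact (dl_pos J i).le
    · intro i
      unfold dlt
      split_ifs with hi
      · positivity
      · unfold dl
        have hlg : κ < lg (i + 1) := by
          rw [lt_NN_iff] at hi
          omega
        have hne : {k | k ∈ J ∧ lg (i + 1) ≤ k}.Nonempty := by
          obtain ⟨k, hk1, hk2⟩ := hinf.exists_gt (lg (i + 1))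
          exact ⟨k, hk1, hk2.le⟩
        have hmem := Nat.sInf_mem hne
        have h1 : κ' ≤ nxt J i := by
          unfold nxt
          exact h _ hmem.1 (lt_of_lt_of_le hlg hmem.2)
        have h2 : (κ' : ℝ) ≤ nxt J i := by exact_mod_cast h1
        gcongr

end Run7.h752.Uni
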