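import Mathlib
import Pool.Agent.Run7.h752.Constr

/-!
# Choice of the sparse set and the main theorem
-/

set_option autoImplicit false

open Polynomial Finset Filter

namespace Run7.h752.Uni

/-- the conclusion of the key lemma -/
def KeyProp (A : E →L[ℂ] E) (N j : ℕ) (γ : ℝ) : Prop :=
  ∀ T D : E →L[ℂ] E, ‖T‖ ≤ 4 → IsSelfAdjoint D → ‖D‖ ≤ 1 →
      D * P N = 0 → P N * D = 0 → ‖T - (A + D)‖ ≤ γ → ∀ f : E, ‖f‖ ≤ N →
      (∀ i < j, f i = 0) → 1 / (N : ℝ) ≤ ‖f j‖ →
      ∃ p : ℂ[X], ‖aeval T p f - e j‖ ≤ (1 / ‖f j‖ + 2) * ‖f - P N f‖ + 1 / N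

lemma key_all (J : Set ℕ) (κ : ℕ) :
    ∃ γ : ℝ, 0 < γ ∧ ∀ j < NN κ, KeyProp (Hd J (NN κ)) (NN κ) j γ := by
  have hN : (1 : ℝ) ≤ (NN κ : ℝ) := by
    have := lt_NN_self κ
    exact_mod_cast (by omega : 1 ≤ NN κ)
  have h : ∀ m, m ≤ NN κ → ∃ γ : ℝ, 0 < γ ∧ ∀ j < m, KeyProp (Hd J (NN κ)) (NN κ) j γ := by
    intro m
    induction m with
    | zero => intro _; exact ⟨1, one_pos, fun j hj => by omega⟩
    | succ m ih =>
      intro hm
      obtain ⟨γ₁, h1, h2⟩ := ih (by omega)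
      obtain ⟨γ₂, h3, h4⟩ := key (NN κ) (Hd J (NN κ)) _ (Hd_head J (NN κ)) (Hd_P J _) (P_Hd J _) m
        (by omega) (NN κ) hN
      refine ⟨min γ₁ γ₂, lt_min h1 h3, fun j hj => ?_⟩
      intro T D hT hD hD1 hDP hPD hTAD
      by_cases hjm : j = m
      · subst hjm
        exact h4 T D hT hD hD1 hDP hPD (hTAD.trans (min_le_right _ _))
      · exact h2 j (by omega) T D hT hD hD1 hDP hPD (hTAD.trans (min_le_left _ _))
  exact h _ le_rfl

/-- the admissible error -/
noncomputable def gam (J : Set ℕ) (κ : ℕ) : ℝ := (key_all J κ).choose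

lemma gam_pos (J : Set ℕ) (κ : ℕ) : 0 < gam J κ := (key_all J κ).choose_spec.1

lemma gam_spec (J : Set ℕ) (κ : ℕ) : ∀ j < NN κ, KeyProp (Hd J (NN κ)) (NN κ) j (gam J κ) :=
  (key_all J κ).choose_spec.2

/-- the error for the next block index -/
noncomputable def err (κ' : ℕ) : ℝ := Real.pi / (2 * hh κ') + 1 / ((κ' : ℝ) + 1)

lemma err_tendsto : Tendsto err atTop (nhds 0) := by
  have h1 : Tendsto (fun κ : ℕ => Real.pi / (κ : ℝ) + 1 / ((κ : ℝ) + 1)) atTop (nhds 0) := by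
    have h2 : Tendsto (fun κ : ℕ => Real.pi / (κ : ℝ)) atTop (nhds 0) :=
      tendsto_const_div_atTop_nhds_zero_nat Real.pi
    have h3 : Tendsto (fun κ : ℕ => 1 / ((κ : ℝ) + 1)) atTop (nhds 0) :=
      tendsto_one_div_add_atTop_nhds_zero_nat
    simpa using h2.add h3
  refine squeeze_zero' (Eventually.of_forall fun κ => ?_) ?_ h1
  · unfold err
    have := hh_pos κ
    have := Real.pi_pos
    positivity
  · filter_upwards [eventually_ge_atTop 1] with κ hκ
    unfold err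
    have h4 := hh_ge κ
    have h5 : (0 : ℝ) < κ := by exact_mod_cast hκ
    have := Real.pi_pos
    gcongr
    linarith

lemma exists_psi (J : Set ℕ) (κ : ℕ) : ∃ m : ℕ, ∀ κ' ≥ m, err κ' ≤ gam J κ := by
  have h := err_tendsto.eventually (ge_mem_nhds (gam_pos J κ))
  exact eventually_atTop.1 h

/-- a lower bound for the next index -/
noncomputable def psi (J : Set ℕ) (κ : ℕ) : ℕ := (exists_psi J κ).choose

lemma psi_spec (J : Set ℕ) (κ : ℕ) : ∀ κ' ≥ psi J κ, err κ' ≤ gam J κ :=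
  (exists_psi J κ).choose_spec

/-- the recursion -/
noncomputable def st : ℕ → Set ℕ × ℕ
  | 0 => ({0}, 0)
  | m + 1 => (insert (max ((st m).2 + 1) (psi (st m).1 (st m).2)) (st m).1,
      max ((st m).2 + 1) (psi (st m).1 (st m).2))

/-- the indices -/
noncomputable def kap (m : ℕ) : ℕ := (st m).2

lemma kap_succ (m : ℕ) : kap (m + 1) = max (kap m + 1) (psi (st m).1 (kap m)) := rfl

lemma kap_strictMono : StrictMono kap := by
  apply strictMono_nat_of_lt_succ
  intro m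
  rw [kap_succ]
  have := le_max_left (kap m + 1) (psi (st m).1 (kap m))
  omega

/-- the sparse set -/
def JJ : Set ℕ := Set.range kap

lemma JJ_inf : JJ.Infinite := Set.infinite_range_of_injective kap_strictMono.injective

lemma st_fst (m : ℕ) : (st m).1 = kap '' Set.Iic m := by
  induction m with
  | zero =>
    ext k
    constructor
    · intro h
      have : k = 0 := h
      exact ⟨0, Set.mem_Iic.2 le_rfl, this.symm⟩
    · rintro ⟨i, hi, rfl⟩
      have : i = 0 := Nat.le_zero.1 (Set.mem_Iic.1 hi)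
      subst this
      rfl
  | succ m ih =>
    have h1 : (st (m + 1)).1 = insert (kap (m + 1)) (st m).1 := rfl
    rw [h1, ih]
    ext k
    constructor
    · rintro (rfl | ⟨i, hi, rfl⟩)
      · exact ⟨m + 1, Set.mem_Iic.2 le_rfl, rfl⟩
      · exact ⟨i, Set.mem_Iic.2 (by have := Set.mem_Iic.1 hi; omega), rfl⟩
    · rintro ⟨i, hi, rfl⟩
      rw [Set.mem_Iic] at hi
      by_cases h : i = m + 1
      · left; rw [h]
      · right; exact ⟨i, Set.mem_Iic.2 (by omega), rfl⟩

lemma JJ_inter (m : ℕ) : JJ ∩ Set.Iic (kap m) = (st m).1 := by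
  rw [st_fst]
  ext k
  constructor
  · rintro ⟨⟨i, rfl⟩, hi⟩
    rw [Set.mem_Iic, kap_strictMono.le_iff_le] at hi
    exact ⟨i, hi, rfl⟩
  · rintro ⟨i, hi, rfl⟩
    exact ⟨⟨i, rfl⟩, kap_strictMono.monotone hi⟩

lemma JJ_gt (m : ℕ) : ∀ k ∈ JJ, kap m < k → kap (m + 1) ≤ k := by
  rintro k ⟨i, rfl⟩ hi
  rw [kap_strictMono.lt_iff_lt] at hi
  exact kap_strictMono.monotone hi

/-- the operator -/
noncomputable def TT : E →L[ℂ] E := T JJ

lemma TT_err (m : ℕ) : ‖TT - (Hd JJ (NN (kap m)) + Dop (JJ ∩ Set.Ioi (kap m)))‖ ≤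
    err (kap (m + 1)) :=
  T_err JJ (kap m) (kap (m + 1)) (JJ_gt m) JJ_inf

lemma TT_key (m : ℕ) (f : E) (j : ℕ) (hj : j < NN (kap m)) (hf : ‖f‖ ≤ NN (kap m))
    (hf0 : ∀ i < j, f i = 0) (hfj : 1 / (NN (kap m) : ℝ) ≤ ‖f j‖) :
    ∃ p : ℂ[X], ‖aeval TT p f - e j‖ ≤
      (1 / ‖f j‖ + 2) * ‖f - P (NN (kap m)) f‖ + 1 / NN (kap m) := by
  have hmem : kap m ∈ JJ := ⟨m, rfl⟩
  have h1 := gam_spec (st m).1 (kap m) j hj
  have h2 : Hd (st m).1 (NN (kap m)) = Hd JJ (NN (kap m)) := by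
    rw [Hd_congr hmem, JJ_inter]
  rw [h2] at h1
  have h3 : ‖TT - (Hd JJ (NN (kap m)) + Dop (JJ ∩ Set.Ioi (kap m)))‖ ≤ gam (st m).1 (kap m) := by
    refine (TT_err m).trans (psi_spec _ _ _ ?_)
    rw [kap_succ]
    exact le_max_right _ _
  exact h1 TT (Dop (JJ ∩ Set.Ioi (kap m))) (norm_T_le JJ) (Dop_selfAdjoint _) (norm_Dop_le _)
    (Dop_P JJ _) (P_Dop JJ _) h3 f hf hf0 hfj

lemma P_tendsto (f : E) : Tendsto (fun N => P N f) atTop (nhds f) := by
  have h := lp.hasSum_single (E := fun _ : ℕ => ℂ) (p := 2) (by norm_num) f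
  have h2 := h.tendsto_sum_nat
  have h3 : ∀ N, P N f = ∑ i ∈ range N, lp.single 2 i (f i) := by
    intro N
    ext l
    rw [P_apply, lp.coeFn_sum, Finset.sum_apply]
    by_cases hl : l < N
    · rw [if_pos hl, Finset.sum_eq_single l]
      · simp
      · intro b _ hb
        exact lp.single_apply_ne _ _ _ (Ne.symm hb)
      · intro h'; exact absurd (Finset.mem_range.2 hl) h'
    · rw [if_neg hl]
      symm
      apply Finset.sum_eq_zero
      intro b hb
      refine lp.single_apply_ne _ _ _ ?_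
      rw [Finset.mem_range] at hb
      omega
  simp_rw [h3]
  exact h2

lemma NN_tendsto : Tendsto (fun m => NN (kap m)) atTop atTop := by
  refine tendsto_atTop_mono (fun m => ?_) tendsto_id
  have h1 : m ≤ kap m := kap_strictMono.le_apply
  have h2 := lt_NN_self (kap m)
  change m ≤ _
  omega

/-- every vector with first nonzero coordinate `j` generates `e j` -/
lemma TT_gen (f : E) (j : ℕ) (hf0 : ∀ i < j, f i = 0) (hfj : f j ≠ 0) (ε : ℝ) (hε : 0 < ε) :
    ∃ p : ℂ[X], ‖aeval TT p f - e j‖ < ε := by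
  have hfj' : 0 < ‖f j‖ := norm_pos_iff.2 hfj
  have hNr : Tendsto (fun m => (NN (kap m) : ℝ)) atTop atTop :=
    tendsto_natCast_atTop_atTop.comp NN_tendsto
  have h1 : ∀ᶠ m in atTop, j < NN (kap m) := NN_tendsto.eventually (eventually_gt_atTop j)
  have h2 : ∀ᶠ m in atTop, ‖f‖ ≤ NN (kap m) := hNr.eventually (eventually_ge_atTop _)
  have h3 : ∀ᶠ m in atTop, 1 / ‖f j‖ ≤ NN (kap m) := hNr.eventually (eventually_ge_atTop _)
  have h4 : ∀ᶠ m in atTop, (1 / ‖f j‖ + 2) * ‖f - P (NN (kap m)) f‖ + 1 / NN (kap m) < ε := by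
    have h5 : Tendsto (fun m => (1 / ‖f j‖ + 2) * ‖f - P (NN (kap m)) f‖ + 1 / (NN (kap m) : ℝ))
        atTop (nhds ((1 / ‖f j‖ + 2) * ‖f - f‖ + 0)) := by
      refine Tendsto.add (Tendsto.const_mul _ ?_) ?_
      · exact (tendsto_const_nhds.sub ((P_tendsto f).comp NN_tendsto)).norm
      · have := tendsto_inv_atTop_zero.comp hNr
        simpa [one_div, Function.comp_def] using this
    rw [sub_self, norm_zero, mul_zero, add_zero] at h5
    exact h5.eventually (gt_mem_nhds hε)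
  obtain ⟨m, hm1, hm2, hm3, hm4⟩ := (h1.and (h2.and (h3.and h4))).exists
  obtain ⟨p, hp⟩ := TT_key m f j hm1 hm2 hf0 (by
    have hpos : (0 : ℝ) < NN (kap m) := by
      have : 0 < NN (kap m) := by omega
      exact_mod_cast this
    rw [div_le_iff₀ hpos]
    rw [div_le_iff₀ hfj'] at hm3
    linarith)
  exact ⟨p, lt_of_le_of_lt hp hm4⟩

lemma aeval_mem (M : Submodule ℂ E) (hM : ∀ x ∈ M, TT x ∈ M) (p : ℂ[X]) (f : E) (hf : f ∈ M) :
    aeval TT p f ∈ M := by
  induction p using Polynomial.induction_on' with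
  | add p q hp hq =>
    rw [map_add, add_apply]
    exact M.add_mem hp hq
  | monomial n a =>
    rw [aeval_monomial, mul_apply_eq_comp, Algebra.algebraMap_eq_smul_one]
    have h1 : ∀ n : ℕ, (TT ^ n) f ∈ M := by
      intro n
      induction n with
      | zero => simpa using hf
      | succ n ih =>
        rw [pow_succ', mul_apply_eq_comp]
        exact hM _ ih
    exact M.smul_mem a (h1 n)

lemma e_mem (M : Submodule ℂ E) (hMc : IsClosed (M : Set E)) (hM : ∀ x ∈ M, TT x ∈ M)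
    (f : E) (hf : f ∈ M) (j : ℕ) (hf0 : ∀ i < j, f i = 0) (hfj : f j ≠ 0) : e j ∈ M := by
  have h : e j ∈ closure (M : Set E) := by
    rw [Metric.mem_closure_iff]
    intro ε hε
    obtain ⟨p, hp⟩ := TT_gen f j hf0 hfj ε hε
    refine ⟨aeval TT p f, aeval_mem M hM p f hf, ?_⟩
    rw [dist_comm, dist_eq_norm]
    exact hp
  rwa [hMc.closure_eq] at h

lemma e_mem_all (M : Submodule ℂ E) (hMc : IsClosed (M : Set E)) (hM : ∀ x ∈ M, TT x ∈ M)
    (f : E) (hf : f ∈ M) (j : ℕ) (hf0 : ∀ i < j, f i = 0) (hfj : f j ≠ 0) :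
    ∀ i, j ≤ i → e i ∈ M := by
  intro i hi
  induction i, hi using Nat.le_induction with
  | base => exact e_mem M hMc hM f hf j hf0 hfj
  | succ i hi ih =>
    have h0 : ∀ l < i, e i l = 0 := by
      intro l hl; rw [e_apply, if_neg (by omega)]
    refine e_mem M hMc hM (TT (e i)) (hM _ ih) (i + 1) ?_ ?_
    · intro l hl
      exact T_low JJ (e i) i h0 l (by omega)
    · unfold TT
      rw [T_sub JJ (e i) i h0, e_apply, if_pos rfl, mul_one]
      exact tK_sub_ne JJ i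

/-- the standard subspaces -/
def Ns (j : ℕ) : Set E := {x : E | ∀ i < j, x i = 0}

lemma Ns_subset (M : Submodule ℂ E) (hMc : IsClosed (M : Set E)) (j : ℕ)
    (h : ∀ i, j ≤ i → e i ∈ M) : Ns j ⊆ M := by
  intro x hx
  have h1 := P_tendsto x
  have h2 : ∀ N, P N x ∈ (M : Set E) := by
    intro N
    have h3 : P N x = ∑ i ∈ range N, x i • e i := by
      ext l
      rw [P_apply, lp.coeFn_sum, Finset.sum_apply]
      have h4 : ∀ i, (⇑(x i • e i) : ℕ → ℂ) l = x i * e i l := fun i => rfl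
      simp only [h4, e_apply]
      by_cases hl : l < N
      · rw [if_pos hl, Finset.sum_eq_single l]
        · simp
        · intro b _ hb
          rw [if_neg (Ne.symm hb), mul_zero]
        · intro h'; exact absurd (Finset.mem_range.2 hl) h'
      · rw [if_neg hl]
        symm
        apply Finset.sum_eq_zero
        intro b hb
        rw [Finset.mem_range] at hb
        rw [if_neg (by omega), mul_zero]
    rw [h3]
    refine M.sum_mem fun i _ => ?_
    by_cases hi : i < j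
    · rw [hx i hi, zero_smul]; exact M.zero_mem
    · exact M.smul_mem _ (h i (by omega))
  exact hMc.mem_of_tendsto h1 (Eventually.of_forall h2)

lemma inv_eq (M : Submodule ℂ E) (hMc : IsClosed (M : Set E)) (hM : ∀ x ∈ M, TT x ∈ M)
    (hne : M ≠ ⊥) : ∃ j, (M : Set E) = Ns j := by
  classical
  obtain ⟨f, hf, hf0⟩ := Submodule.exists_mem_ne_zero_of_ne_bot hne
  have hex : ∃ j, ∃ g ∈ M, g j ≠ 0 := by
    by_contra hcon
    push Not at hcon
    apply hf0
    ext j
    rw [hcon j f hf]; rfl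
  set j := Nat.find hex with hj
  obtain ⟨g, hg, hgj⟩ := Nat.find_spec hex
  have hmin : ∀ x ∈ M, ∀ i < j, x i = 0 := by
    intro x hx i hi
    by_contra hcon
    exact Nat.find_min hex hi ⟨x, hx, hcon⟩
  refine ⟨j, Set.Subset.antisymm (fun x hx => hmin x hx) ?_⟩
  exact Ns_subset M hMc j (e_mem_all M hMc hM g hg j (hmin g hg) hgj)

lemma Ns_anti {i j : ℕ} (h : i ≤ j) : Ns j ⊆ Ns i := fun x hx l hl => hx l (by omega)

/-- **`TT` is unicellular.** -/
theorem TT_unicellular (M N : Submodule ℂ E) (hMc : IsClosed (M : Set E))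
    (hM : ∀ x ∈ M, TT x ∈ M) (hNc : IsClosed (N : Set E)) (hN : ∀ x ∈ N, TT x ∈ N) :
    M ≤ N ∨ N ≤ M := by
  by_cases h1 : M = ⊥
  · left; rw [h1]; exact bot_le
  by_cases h2 : N = ⊥
  · right; rw [h2]; exact bot_le
  obtain ⟨i, hi⟩ := inv_eq M hMc hM h1
  obtain ⟨j, hj⟩ := inv_eq N hNc hN h2
  rcases le_total i j with h | h
  · right
    intro x hx
    have : x ∈ (N : Set E) := hx
    rw [hj] at this
    have h3 := Ns_anti h this
    rw [← hi] at h3
    exact h3
  · left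
    intro x hx
    have : x ∈ (M : Set E) := hx
    rw [hi] at this
    have h3 := Ns_anti h this
    rw [← hj] at h3
    exact h3

/-! ### the spectrum -/

lemma zero_mem_spectrum : (0 : ℂ) ∈ spectrum ℂ TT := by
  rw [spectrum.zero_mem_iff]
  intro h
  obtain ⟨u, hu⟩ := h
  have h1 : TT * (↑(u⁻¹) : E →L[ℂ] E) = 1 := by rw [← hu]; simp
  have h2 : TT ((↑(u⁻¹) : E →L[ℂ] E) (e 0)) = e 0 := by
    rw [← mul_apply_eq_comp, h1]; rfl
  have h3 : TT ((↑(u⁻¹) : E →L[ℂ] E) (e 0)) 0 = 0 :=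
    T_low JJ _ 0 (fun j hj => by omega) 0 le_rfl
  rw [h2, e_apply, if_pos rfl] at h3
  exact one_ne_zero h3

/-- lower bound for the rows of the selfadjoint part -/
lemma wt_row_ge (k i : ℕ) (hi : i ∈ blk (k + 1)) : 1 / 4 ≤ ∑ j ∈ blk (k + 1), wt (k + 1) i j := by
  have hp := hh_pos (k + 1)
  rw [wt_row]
  have hle : hh (k + 1) ≤ 2 * hh k := by
    have h1 := hh_succ_le k
    have h2 := one_le_hh k
    linarith
  have hi' := hi
  unfold blk at hi'
  rw [Finset.mem_Ico] at hi'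
  have hpow : 2 ^ (k + 1 + 1) = 2 ^ (k + 1) + 2 ^ (k + 1) := by ring
  have hpow' : 2 ^ (k + 1) = 2 ^ k + 2 ^ k := by ring
  have hk1 : 1 ≤ 2 ^ k := Nat.one_le_two_pow
  have hL0 : 0 ≤ ∑ j ∈ (blk (k + 1)).filter (· < i), 1 / ((i : ℝ) - j) := by
    apply Finset.sum_nonneg
    intro j hj
    rw [Finset.mem_filter] at hj
    have : (j : ℝ) < i := by exact_mod_cast hj.2
    have : 0 < (i : ℝ) - j := by linarith
    positivity
  have hR0 : 0 ≤ ∑ j ∈ (blk (k + 1)).filter (i < ·), 1 / ((j : ℝ) - i) := by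
    apply Finset.sum_nonneg
    intro j hj
    rw [Finset.mem_filter] at hj
    have : (i : ℝ) < j := by exact_mod_cast hj.2
    have : 0 < (j : ℝ) - i := by linarith
    positivity
  have hmain : hh k ≤ ∑ j ∈ (blk (k + 1)).filter (· < i), 1 / ((i : ℝ) - j) +
      ∑ j ∈ (blk (k + 1)).filter (i < ·), 1 / ((j : ℝ) - i) := by
    by_cases hside : 2 ^ (k + 1) - 1 + 2 ^ k ≤ i
    · -- enough room on the left
      refine le_trans ?_ (le_add_of_nonneg_right hR0)
      have h1 : hh k = ∑ j ∈ (range (2 ^ k)).image (fun m => i - 1 - m), 1 / ((i : ℝ) - j) := by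
        rw [Finset.sum_image]
        · unfold hh
          refine Finset.sum_congr rfl fun m hm => ?_
          rw [Finset.mem_range] at hm
          have h2 : m + 1 ≤ i := by omega
          have h3 : ((i - 1 - m : ℕ) : ℝ) = (i : ℝ) - (m + 1) := by
            rw [Nat.sub_sub, add_comm 1 m, Nat.cast_sub h2]
            push_cast; ring
          rw [h3]
          congr 1
          ring
        · intro a ha b hb hab
          simp only [Finset.coe_range, Set.mem_Iio] at ha hb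
          simp only at hab
          omega
      rw [h1]
      apply Finset.sum_le_sum_of_subset_of_nonneg
      · intro j hj
        rw [Finset.mem_image] at hj
        obtain ⟨m, hm, rfl⟩ := hj
        rw [Finset.mem_range] at hm
        rw [Finset.mem_filter]
        unfold blk
        rw [Finset.mem_Ico]
        omega
      · intro j hj _
        rw [Finset.mem_filter] at hj
        have : (j : ℝ) < i := by exact_mod_cast hj.2
        have : 0 < (i : ℝ) - j := by linarith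
        positivity
    · refine le_trans ?_ (le_add_of_nonneg_left hL0)
      have h1 : hh k = ∑ j ∈ (range (2 ^ k)).image (fun m => i + 1 + m), 1 / ((j : ℝ) - i) := by
        rw [Finset.sum_image]
        · unfold hh
          refine Finset.sum_congr rfl fun m hm => ?_
          push_cast
          congr 1
          ring
        · intro a ha b hb hab
          simp only at hab
          omega
      rw [h1]
      apply Finset.sum_le_sum_of_subset_of_nonneg
      · intro j hj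
        rw [Finset.mem_image] at hj
        obtain ⟨m, hm, rfl⟩ := hj
        rw [Finset.mem_range] at hm
        rw [Finset.mem_filter]
        unfold blk
        rw [Finset.mem_Ico]
        omega
      · intro j hj _
        rw [Finset.mem_filter] at hj
        have : (i : ℝ) < j := by exact_mod_cast hj.2
        have : 0 < (j : ℝ) - i := by linarith
        positivity
  calc (1 : ℝ) / 4 ≤ 1 / (2 * hh (k + 1)) * hh k := by
        rw [div_mul_eq_mul_div, one_mul, div_le_div_iff₀ (by norm_num) (by positivity)]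
        linarith
    _ ≤ _ := by gcongr

lemma norm_Dop_ge (κ : ℕ) : 1 / 4 ≤ ‖Dop (JJ ∩ Set.Ioi κ)‖ := by
  obtain ⟨k', hk1, hk2⟩ := JJ_inf.exists_gt κ
  obtain ⟨k, rfl⟩ : ∃ k, k' = k + 1 := ⟨k' - 1, by omega⟩
  set x : E := ∑ j ∈ blk (k + 1), e j with hx
  have hxl : ∀ l, x l = if l ∈ blk (k + 1) then 1 else 0 := by
    intro l
    rw [hx, lp.coeFn_sum, Finset.sum_apply]
    simp only [e_apply]
    rw [Finset.sum_ite_eq]
  have hxn : ‖x‖ ^ 2 = (blk (k + 1)).card := by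
    rw [norm_sq, tsum_eq_sum (s := blk (k + 1))]
    · rw [Finset.sum_congr rfl (g := fun _ => (1 : ℝ))]
      · simp
      · intro i hi
        rw [hxl, if_pos hi]; simp
    · intro i hi
      rw [hxl, if_neg hi]; simp
  have hDx : ∀ i ∈ blk (k + 1), 1 / 4 ≤ ‖Dop (JJ ∩ Set.Ioi κ) x i‖ := by
    intro i hi
    have h1 : Dop (JJ ∩ Set.Ioi κ) x i = ((∑ j ∈ blk (k + 1), wt (k + 1) i j : ℝ) : ℂ) := by
      rw [hx, map_sum, lp.coeFn_sum, Finset.sum_apply]
      push_cast
      refine Finset.sum_congr rfl fun j hj => ?_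
      rw [Dop_e]
      unfold dK wt
      rw [mem_blk] at hi hj
      by_cases hij : i = j
      · subst hij; simp
      · rw [if_pos ⟨hi.trans hj.symm, by rw [hi]; exact ⟨hk1, hk2⟩, hij⟩, if_neg hij, hi]
    rw [h1, Complex.norm_real, Real.norm_eq_abs]
    exact (wt_row_ge k i hi).trans (le_abs_self _)
  have h2 : (1 / 4) ^ 2 * ‖x‖ ^ 2 ≤ ‖Dop (JJ ∩ Set.Ioi κ) x‖ ^ 2 := by
    refine le_trans ?_ (sum_le _ (blk (k + 1)))
    rw [hxn]
    calc (1 / 4 : ℝ) ^ 2 * ((blk (k + 1)).card : ℝ) = ∑ i ∈ blk (k + 1), (1 / 4 : ℝ) ^ 2 := by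
          rw [Finset.sum_const, nsmul_eq_mul]; ring
      _ ≤ _ := by
          refine Finset.sum_le_sum fun i hi => ?_
          have := hDx i hi
          gcongr
  have h3 : 0 < ‖x‖ := by
    have h4 : 0 < ‖x‖ ^ 2 := by
      rw [hxn, blk_card]; positivity
    refine lt_of_le_of_ne (norm_nonneg _) fun h => ?_
    rw [← h] at h4
    simp at h4
  have h5 : 1 / 4 * ‖x‖ ≤ ‖Dop (JJ ∩ Set.Ioi κ) x‖ := by
    rw [← mul_pow] at h2
    exact (abs_le_of_sq_le_sq' h2 (norm_nonneg _)).2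
  have h6 := (Dop (JJ ∩ Set.Ioi κ)).le_opNorm x
  by_contra hcon
  push Not at hcon
  have : ‖Dop (JJ ∩ Set.Ioi κ)‖ * ‖x‖ < 1 / 4 * ‖x‖ := by gcongr
  linarith

lemma pow_ge (m : ℕ) : (1 / 8 : ℝ) ^ (2 ^ m) ≤ ‖TT ^ (2 ^ m)‖ := by
  set n := 2 ^ m with hn
  have hn1 : 1 ≤ n := Nat.one_le_two_pow
  obtain ⟨L, hL0, hL⟩ := aeval_lip (A := E →L[ℂ] E) (X ^ n) 5 (by norm_num)
  have hlim : Tendsto (fun l => (1 / 2 : ℝ) * (1 / 4) ^ n - L * err (kap (l + 1))) atTop
      (nhds ((1 / 2 : ℝ) * (1 / 4) ^ n - L * 0)) := by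
    refine Tendsto.sub tendsto_const_nhds (Tendsto.const_mul _ ?_)
    refine err_tendsto.comp ?_
    exact kap_strictMono.tendsto_atTop.comp (tendsto_add_atTop_nat 1)
  have hge : ∀ᶠ l in atTop, (1 / 2 : ℝ) * (1 / 4) ^ n - L * err (kap (l + 1)) ≤ ‖TT ^ n‖ := by
    have herr1 : ∀ᶠ l in atTop, err (kap (l + 1)) ≤ 1 := by
      have h := err_tendsto.comp (kap_strictMono.tendsto_atTop.comp (tendsto_add_atTop_nat 1))
      exact h.eventually (ge_mem_nhds one_pos)
    filter_upwards [herr1] with l hl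
    set A := Hd JJ (NN (kap l)) with hA
    set D := Dop (JJ ∩ Set.Ioi (kap l)) with hD
    have h1 : ‖TT - (A + D)‖ ≤ err (kap (l + 1)) := TT_err l
    have hT4 : ‖TT‖ ≤ 4 := norm_T_le JJ
    have hAD : ‖A + D‖ ≤ 5 := by
      have h2 : A + D = TT - (TT - (A + D)) := by abel
      rw [h2]
      exact (norm_sub_le _ _).trans (by linarith)
    have h3 := hL TT (A + D) (by linarith) hAD
    simp only [map_pow, aeval_X] at h3
    have h4 : ‖D ^ n‖ = ‖D‖ ^ n := by
      have hs : IsSelfAdjoint D := Dop_selfAdjoint (JJ ∩ Set.Ioi (kap l))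
      exact hs.norm_pow_two_pow m
    have h5 : (1 / 4 : ℝ) ^ n ≤ ‖D ^ n‖ := by
      rw [h4]
      have := norm_Dop_ge (kap l)
      gcongr
    have h6 : ‖D ^ n‖ ≤ ‖(A + D) ^ n‖ * 2 := by
      refine ContinuousLinearMap.opNorm_le_bound _ (by positivity) fun x => ?_
      have h7 := aeval_split A D (P (NN (kap l))) (Hd_P _ _) (P_Hd _ _) (Dop_P _ _) (P_Dop _ _)
        (X ^ n) (x - P (NN (kap l)) x)
      simp only [map_pow, aeval_X] at h7
      have h8 : P (NN (kap l)) (x - P (NN (kap l)) x) = 0 := by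
        rw [map_sub, ← mul_apply_eq_comp, P_idem, sub_self]
      rw [h8, map_zero, zero_add, sub_zero] at h7
      have h9 : (D ^ n) (x - P (NN (kap l)) x) = (D ^ n) x := by
        obtain ⟨n', hn'⟩ : ∃ n', n = n' + 1 := ⟨n - 1, by omega⟩
        rw [hn', map_sub]
        have h10 : (D ^ (n' + 1)) (P (NN (kap l)) x) = 0 := by
          rw [pow_succ, mul_apply_eq_comp, ← mul_apply_eq_comp D, Dop_P]
          simp
        rw [h10, sub_zero]
      rw [h9] at h7
      rw [← h7]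
      have h11 : ‖x - P (NN (kap l)) x‖ ≤ 2 * ‖x‖ := by
        have := (P (NN (kap l))).le_opNorm x
        have h12 := norm_P_le (NN (kap l))
        have h13 : ‖P (NN (kap l))‖ * ‖x‖ ≤ 1 * ‖x‖ := by gcongr
        have := norm_sub_le x (P (NN (kap l)) x)
        linarith
      calc ‖((A + D) ^ n) (x - P (NN (kap l)) x)‖ ≤ ‖(A + D) ^ n‖ * ‖x - P (NN (kap l)) x‖ :=
            ContinuousLinearMap.le_opNorm _ _
        _ ≤ ‖(A + D) ^ n‖ * (2 * ‖x‖) := by gcongr
        _ = _ := by ring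
    have h14 : ‖(A + D) ^ n‖ ≤ ‖TT ^ n‖ + ‖TT ^ n - (A + D) ^ n‖ := by
      have h15 : (A + D) ^ n = TT ^ n - (TT ^ n - (A + D) ^ n) := by abel
      conv_lhs => rw [h15]
      exact norm_sub_le _ _
    have h16 : L * ‖TT - (A + D)‖ ≤ L * err (kap (l + 1)) := by gcongr
    linarith
  have h18 : (1 / 2 : ℝ) * (1 / 4) ^ n - L * 0 ≤ ‖TT ^ n‖ := le_of_tendsto hlim hge
  have h19 : (1 / 8 : ℝ) ^ n ≤ 1 / 2 * (1 / 4) ^ n := by
    have h20 : (1 / 8 : ℝ) ^ n = (1 / 2) ^ n * (1 / 4) ^ n := by rw [← mul_pow]; norm_num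
    rw [h20]
    have h21 : (1 / 2 : ℝ) ^ n ≤ 1 / 2 := by
      calc (1 / 2 : ℝ) ^ n ≤ (1 / 2) ^ 1 := pow_le_pow_of_le_one (by norm_num) (by norm_num) hn1
        _ = 1 / 2 := pow_one _
    gcongr
  linarith

lemma exists_nonzero_spectrum : ∃ z ∈ spectrum ℂ TT, z ≠ 0 := by
  obtain ⟨z, hz, hz2⟩ := spectrum.exists_nnnorm_eq_spectralRadius TT
  refine ⟨z, hz, ?_⟩
  rintro rfl
  have h1 := spectrum.pow_nnnorm_pow_one_div_tendsto_nhds_spectralRadius TT
  rw [← hz2] at h1
  have h2 : Tendsto (fun m : ℕ => 2 ^ m) atTop atTop :=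
    tendsto_pow_atTop_atTop_of_one_lt (by norm_num)
  have h3 := h1.comp h2
  have h4 : ∀ m : ℕ, ((1 / 8 : NNReal) : ENNReal) ≤
      ((fun n : ℕ => ((‖TT ^ n‖₊ : ENNReal) ^ (1 / n : ℝ))) ∘ fun m : ℕ => 2 ^ m) m := by
    intro m
    simp only [Function.comp]
    have h5 : (1 / 8 : NNReal) ^ (2 ^ m) ≤ ‖TT ^ (2 ^ m)‖₊ := by
      rw [← NNReal.coe_le_coe]
      push_cast
      exact pow_ge m
    have h6 : (((1 / 8 : NNReal) : ENNReal) ^ (2 ^ m)) ≤ (‖TT ^ (2 ^ m)‖₊ : ENNReal) := by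
      rw [← ENNReal.coe_pow]
      exact ENNReal.coe_le_coe.2 h5
    have h7 : ((1 / 8 : NNReal) : ENNReal) =
        (((1 / 8 : NNReal) : ENNReal) ^ (2 ^ m)) ^ (1 / ((2 ^ m : ℕ) : ℝ)) := by
      rw [← ENNReal.rpow_natCast, ← ENNReal.rpow_mul, mul_one_div_cancel, ENNReal.rpow_one]
      positivity
    rw [h7]
    exact ENNReal.rpow_le_rpow h6 (by positivity)
  have h8 := ge_of_tendsto' h3 h4
  simp at h8

end Run7.h752.Uni
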