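import Mathlib
import Pool.Agent.Helper159.Atomic

set_option autoImplicit false

namespace Run7.h752.ChainZ

open Pool.Agent.Helper159

/-- The space `ℓ²(ℤ)`. -/
abbrev L2Z : Type := lp (fun _ : ℤ => ℂ) 2

/-- The subspace of all vectors whose coordinates of index less than `k` vanish, that is the closed
span of the basis vectors `e_n`, `n ≥ k`. -/
def tail (k : ℤ) : Submodule ℂ L2Z where
  carrier := {f | ∀ n : ℤ, n < k → f n = 0}
  add_mem' := by
    intro a b ha hb n hn
    have h1 := ha n hn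
    have h2 := hb n hn
    show (a + b : L2Z) n = 0
    rw [lp.coeFn_add, Pi.add_apply, h1, h2, add_zero]
  zero_mem' := by
    intro n _
    rfl
  smul_mem' := by
    intro c a ha n hn
    have h1 := ha n hn
    show (c • a : L2Z) n = 0
    rw [lp.coeFn_smul, Pi.smul_apply, h1, smul_zero]

lemma mem_tail {k : ℤ} {f : L2Z} : f ∈ tail k ↔ ∀ n : ℤ, n < k → f n = 0 := Iff.rfl

lemma tail_anti {k l : ℤ} (h : k ≤ l) : tail l ≤ tail k :=
  fun _ hf n hn => hf n (lt_of_lt_of_le hn h)

lemma single_mem {k : ℤ} : (lp.single 2 k (1 : ℂ) : L2Z) ∈ tail k := by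
  intro n hn
  rw [lp.single_apply_ne]
  exact ne_of_lt hn

lemma single_not_mem {k l : ℤ} (h : k < l) : (lp.single 2 k (1 : ℂ) : L2Z) ∉ tail l := by
  intro hm
  have h1 := hm k h
  rw [lp.single_apply_self] at h1
  exact one_ne_zero h1

/-- There is an operator on `ℓ²(ℤ)` whose closed invariant subspaces are exactly `0`, the whole
space and the closed spans of `e_n`, `n ≥ k`. -/
theorem exists_op : ∃ A : L2Z →L[ℂ] L2Z, ∀ M : Submodule ℂ L2Z,
    (IsClosed (M : Set L2Z) ∧ ∀ x ∈ M, A x ∈ M) ↔ (M = ⊥ ∨ M = ⊤ ∨ ∃ k : ℤ, M = tail k) := by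
  have : Encodable ℤᵒᵈ := inferInstanceAs (Encodable ℤ)
  obtain ⟨T, hT⟩ : ∃ T : L2Z →L[ℂ] L2Z, ∀ M : Submodule ℂ L2Z,
      (IsClosed (M : Set L2Z) ∧ ∀ x ∈ M, T x ∈ M) ↔
        ∃ D : LowerSet ℤᵒᵈ, ∀ f : L2Z, f ∈ M ↔ ∀ q : ℤ, OrderDual.toDual q ∉ D → f q = 0 :=
    lat_lowerSet (Ω := ℤᵒᵈ)
  refine ⟨T, fun M => (hT M).trans ⟨?_, ?_⟩⟩
  · rintro ⟨D, hD⟩
    -- `D` is an upper set of `ℤ`
    have hup : ∀ a b : ℤ, a ≤ b → OrderDual.toDual a ∈ D → OrderDual.toDual b ∈ D := by
      intro a b hab ha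
      exact D.lower (show OrderDual.toDual b ≤ OrderDual.toDual a from hab) ha
    by_cases h1 : ∀ q : ℤ, OrderDual.toDual q ∉ D
    · left
      rw [eq_bot_iff]
      intro f hf
      rw [Submodule.mem_bot]
      ext q
      exact (hD f).1 hf q (h1 q)
    by_cases h2 : ∀ q : ℤ, OrderDual.toDual q ∈ D
    · right; left
      rw [eq_top_iff]
      intro f _
      exact (hD f).2 fun q hq => absurd (h2 q) hq
    push Not at h1 h2
    obtain ⟨a, ha⟩ := h1
    obtain ⟨b, hb⟩ := h2
    right; right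
    have hbd : ∀ z : ℤ, OrderDual.toDual z ∈ D → b ≤ z := by
      intro z hz
      by_contra hcon
      exact hb (hup z b (le_of_lt (not_le.1 hcon)) hz)
    obtain ⟨k, hk, hmin⟩ := Int.exists_least_of_bdd (P := fun z => OrderDual.toDual z ∈ D)
      ⟨b, hbd⟩ ⟨a, ha⟩
    refine ⟨k, ?_⟩
    ext f
    rw [mem_tail]
    refine (hD f).trans ⟨fun h n hn => h n fun hnD => absurd (hmin n hnD) (not_le.2 hn),
      fun h q hq => h q ?_⟩
    by_contra hcon
    exact hq (hup k q (not_lt.1 hcon) hk)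
  · rintro (rfl | rfl | ⟨k, rfl⟩)
    · refine ⟨⊥, fun f => ?_⟩
      rw [Submodule.mem_bot]
      refine ⟨fun h q _ => by rw [h]; rfl, fun h => ?_⟩
      ext q
      exact h q (LowerSet.notMem_bot)
    · refine ⟨⊤, fun f => ⟨fun _ q hq => absurd (LowerSet.mem_top) hq, fun _ => trivial⟩⟩
    · refine ⟨⟨{q : ℤᵒᵈ | k ≤ OrderDual.ofDual q}, fun a b hba ha => ?_⟩, fun f => ?_⟩
      · exact le_trans (show k ≤ OrderDual.ofDual a from ha) hba
      · exact ⟨fun h q hq => h q (not_le.1 hq), fun h q hq => h q (not_le.2 hq)⟩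

/-- The lattice of closed invariant subspaces of an operator on `ℓ²(ℤ)`. -/
abbrev Lat (A : L2Z →L[ℂ] L2Z) : Type :=
  {M : Submodule ℂ L2Z // IsClosed (M : Set L2Z) ∧ ∀ x ∈ M, A x ∈ M}

/-- The order isomorphism with `ℤ` with a new least and a new greatest element adjoined. -/
theorem nonempty_iso (A : L2Z →L[ℂ] L2Z)
    (hA : ∀ M : Submodule ℂ L2Z,
      (IsClosed (M : Set L2Z) ∧ ∀ x ∈ M, A x ∈ M) ↔ (M = ⊥ ∨ M = ⊤ ∨ ∃ k : ℤ, M = tail k)) :
    Nonempty (WithBot (WithTop ℤ) ≃o Lat A) := by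
  let g : WithBot (WithTop ℤ) → Submodule ℂ L2Z := fun x =>
    match x with
    | none => ⊥
    | some none => ⊤
    | some (some n) => tail (-n)
  have hg : ∀ x, IsClosed (g x : Set L2Z) ∧ ∀ y ∈ g x, A y ∈ g x := by
    intro x
    rw [hA]
    match x with
    | none => exact Or.inl rfl
    | some none => exact Or.inr (Or.inl rfl)
    | some (some n) => exact Or.inr (Or.inr ⟨-n, rfl⟩)
  have hbot : ∀ k : ℤ, (⊥ : Submodule ℂ L2Z) < tail k := by
    intro k
    rw [bot_lt_iff_ne_bot]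
    intro h
    have h1 : (lp.single 2 k (1 : ℂ) : L2Z) ∈ tail k := single_mem
    rw [h, Submodule.mem_bot] at h1
    have h2 : (lp.single 2 k (1 : ℂ) : L2Z) k = 0 := by rw [h1]; rfl
    rw [lp.single_apply_self] at h2
    exact one_ne_zero h2
  have htop : ∀ k : ℤ, tail k < (⊤ : Submodule ℂ L2Z) := by
    intro k
    rw [lt_top_iff_ne_top]
    intro h
    have h1 : (lp.single 2 (k - 1) (1 : ℂ) : L2Z) ∈ tail k := by rw [h]; trivial
    exact single_not_mem (by omega) h1
  have hmono : StrictMono g := by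
    intro x y hxy
    match x, y with
    | none, none => exact absurd hxy (lt_irrefl _)
    | none, some none => exact lt_trans (hbot 0) (htop 0)
    | none, some (some n) => exact hbot _
    | some _, none => exact absurd hxy (WithBot.not_lt_bot _)
    | some none, some b =>
      exact absurd (WithBot.coe_lt_coe.1 hxy) (not_top_lt)
    | some (some n), some none => exact htop _
    | some (some n), some (some m) =>
      have h1 : n < m := WithTop.coe_lt_coe.1 (WithBot.coe_lt_coe.1 hxy)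
      refine lt_of_le_of_ne (tail_anti (by omega)) ?_
      intro h
      have h2 : (lp.single 2 (-m) (1 : ℂ) : L2Z) ∈ tail (-m) := single_mem
      rw [← show tail (-n) = tail (-m) from h] at h2
      exact single_not_mem (by omega) h2
  let G : WithBot (WithTop ℤ) → Lat A := fun x => ⟨g x, hg x⟩
  have hG : StrictMono G := fun x y hxy => hmono hxy
  have hsurj : Function.Surjective G := by
    rintro ⟨M, hM⟩
    rcases (hA M).1 hM with h | h | ⟨k, h⟩
    · exact ⟨none, Subtype.ext h.symm⟩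
    · exact ⟨some none, Subtype.ext h.symm⟩
    · refine ⟨some (some (-k)), Subtype.ext ?_⟩
      show tail (- -k) = M
      rw [neg_neg, h]
  exact ⟨StrictMono.orderIsoOfSurjective G hG hsurj⟩

end Run7.h752.ChainZ
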